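import Pool.Agent.Lib_helper57.YR.B
import Pool.Agent.Lib_helper74.KY.Blk.R3

/-!
# Truth-table completeness: search for unique witnesses (MP_675993_lc)

If `NP` reduces to the left cut `RL` by truth-table reductions, then for the answers of `RL` to a list
of queries there are not more candidates than queries, plus one, and the bits of a unique witness
are found by trying all of them.
-/

set_option autoImplicit false
set_option linter.unusedSectionVars false

namespace Pool.Agent.CKP

open Pool.Agent.CK

variable {O : Lang}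
variable {α β γ δ : Type} [ToD α] [ToD β] [ToD γ] [ToD δ]

section cand

variable {W : ℕ → ℕ → Bool} (ℓ : ℕ → ℕ)

/-- the query `x` asks whether `NN |M| < cvR x` -/
def cvR (M : List Unit) (x : List Bool) : ℕ :=
  thr x * 2 ^ (sN ℓ M.length - sN ℓ (colr x).length)

/-- an upper bound for the numbers `m` in the queries -/
def maxM (X : List (List Bool)) : List Unit := X.flatMap fun x => ulen (colr x)

/-- the candidates for the answers to the queries -/
def candR (X : List (List Bool)) : List (Bool × ℕ) :=
  (false, 0) :: X.map fun x => (true, cvR ℓ (maxM X) x)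

/-- the answer to the query `x` according to a candidate -/
def ansR (M : List Unit) (cd : Bool × ℕ) (x : List Bool) : Bool :=
  cd.1 && decide (cd.2 ≤ cvR ℓ M x)

variable {ℓ}

theorem RL_cv (hb : ∀ m v, W m v = true → v < 2 ^ ℓ m) {M : List Unit} {x : List Bool}
    (h : (colr x).length ≤ M.length) :
    RL W ℓ x = decide (NN W ℓ M.length < cvR ℓ M x) := by
  rw [RL_eq, Bool.eq_iff_iff, decide_eq_true_eq, decide_eq_true_eq]
  exact NN_lt_iff hb h _

theorem colr_maxM {X : List (List Bool)} {x : List Bool} (h : x ∈ X) :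
    (colr x).length ≤ (maxM X).length := by
  obtain ⟨s, t, rfl⟩ := List.append_of_mem h
  unfold maxM
  rw [List.flatMap_append, List.flatMap_cons, List.length_append, List.length_append, ulen_eq,
    List.length_replicate]
  omega

theorem candR_spec (hb : ∀ m v, W m v = true → v < 2 ^ ℓ m) (X : List (List Bool)) :
    ∃ cd ∈ candR ℓ X, ∀ x ∈ X, ansR ℓ (maxM X) cd x = RL W ℓ x := by
  by_cases h : ∃ x ∈ X, RL W ℓ x = true
  · obtain ⟨x0, hx0, hmin⟩ := Finset.exists_min_image
      (X.toFinset.filter fun x => RL W ℓ x = true) (fun x => cvR ℓ (maxM X) x) (by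
        obtain ⟨x, hx, hR⟩ := h
        exact ⟨x, Finset.mem_filter.mpr ⟨List.mem_toFinset.mpr hx, hR⟩⟩)
    rw [Finset.mem_filter, List.mem_toFinset] at hx0
    refine ⟨(true, cvR ℓ (maxM X) x0), List.mem_cons_of_mem _ (List.mem_map.mpr
      ⟨x0, hx0.1, rfl⟩), fun x hx => ?_⟩
    unfold ansR
    rw [Bool.true_and, Bool.eq_iff_iff, decide_eq_true_eq]
    constructor
    · intro h1
      have h2 := hx0.2
      rw [RL_cv hb (colr_maxM hx0.1), decide_eq_true_eq] at h2
      rw [RL_cv hb (colr_maxM hx), decide_eq_true_eq]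
      exact lt_of_lt_of_le h2 h1
    · intro h1
      exact hmin x (Finset.mem_filter.mpr ⟨List.mem_toFinset.mpr hx, h1⟩)
  · refine ⟨(false, 0), List.mem_cons_self, fun x hx => ?_⟩
    push Not at h
    have h1 := h x hx
    unfold ansR
    rw [Bool.false_and]
    exact (Bool.eq_false_iff.mpr h1).symm

theorem PTime.cvR (hl : UPoly O ℓ) {M : γ → List Unit} {x : γ → List Bool} (hM : PTime O M)
    (hx : PTime O x) : PTime O (fun a => CKP.cvR ℓ (M a) (x a)) := by
  unfold CKP.cvR
  have h1 : PTime O (fun a => List.replicate (sN ℓ (M a).length) ()) :=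
    UPoly.comp (sN_upoly hl) hM
  have h2 : PTime O (fun a => List.replicate (sN ℓ (CKP.colr (x a)).length) ()) :=
    UPoly.comp (sN_upoly hl) (PTime.colr hx)
  have h3 := PTime.mulp (PTime.dropn h2 h1) (PTime.thr hx)
  refine h3.of_eq fun a => ?_
  rw [List.length_drop, List.length_replicate, List.length_replicate]

theorem PTime.maxM {X : γ → List (List Bool)} (hX : PTime O X) :
    PTime O (fun a => CKP.maxM (X a)) := by
  unfold CKP.maxM
  exact PTime.flatMap (f := fun (_ : γ) (x : List Bool) => CKP.ulen (CKP.colr x)) hX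
    (PTime.ulen (PTime.colr PTime.id.snd))

theorem PTime.candR (hl : UPoly O ℓ) {X : γ → List (List Bool)} (hX : PTime O X) :
    PTime O (fun a => CKP.candR ℓ (X a)) := by
  unfold CKP.candR
  refine PTime.cons (PTime.const (false, 0)) ?_
  refine PTime.map (f := fun a x => (true, CKP.cvR ℓ (CKP.maxM (X a)) x)) hX ?_
  exact (PTime.const true).pair (PTime.cvR hl (PTime.maxM (hX.comp PTime.id.fst)) PTime.id.snd)

theorem PTime.ansR (hl : UPoly O ℓ) {M : γ → List Unit} {cd : γ → Bool × ℕ}
    {x : γ → List Bool} (hM : PTime O M) (hcd : PTime O cd) (hx : PTime O x) :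
    PTime O (fun a => CKP.ansR ℓ (M a) (cd a) (x a)) := by
  unfold CKP.ansR
  exact hcd.fst.and (PTime.nat_le hcd.snd (PTime.cvR hl hM hx))

end cand

/-! ### bits -/

theorem ofBits_range (g : ℕ) : ∀ v : ℕ,
    ofBits ((List.range g).map fun i => (v / 2 ^ i).bodd) = v % 2 ^ g := by
  induction g with
  | zero => intro v; simp [Nat.mod_one]
  | succ g ih =>
    intro v
    rw [List.range_succ_eq_map, List.map_cons, List.map_map, ofBits_cons]
    have h1 : ((fun i => (v / 2 ^ i).bodd) ∘ Nat.succ) = fun i => (v / 2 / 2 ^ i).bodd := by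
      funext i
      simp only [Function.comp_apply, Nat.succ_eq_add_one]
      rw [pow_succ', Nat.div_div_eq_div_mul]
    rw [h1, ih (v / 2), pow_zero, Nat.div_one, Nat.bit_val]
    have h2 : v.bodd.toNat = v % 2 := (Nat.mod_two_of_bodd v).symm
    rw [h2, pow_succ', Nat.mod_mul, Nat.add_comm]

theorem PTime.bitat {v : γ → ℕ} {u : γ → List Unit} (hv : PTime O v) (hu : PTime O u) :
    PTime O (fun a => (v a / 2 ^ (u a).length).bodd) := (PTime.divp hu hv).bodd

/-! ### the questions about the bits of a witness -/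

/-- an instance with a number -/
def encI (z : List Bool) (i : List Unit) : List Bool := (D.cons (toD z) (toD i)).enc
/-- the instance -/
def zzI (w : List Bool) : List Bool := toBits (dec w).car
/-- the number, in unary -/
def iiI (w : List Bool) : List Unit := ulen (toList (dec w).cdr)

theorem zzI_enc (z : List Bool) (i : List Unit) : zzI (encI z i) = z := by
  unfold zzI encI
  rw [dec_enc]
  exact toBits_toD z

theorem iiI_enc (z : List Bool) (i : List Unit) : (iiI (encI z i)).length = i.length := by
  unfold iiI encI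
  rw [dec_enc]
  show (ulen (toList (toD i))).length = _
  rw [ulen_eq, List.length_replicate, toList_toD, List.length_map]

theorem PTime.encI {z : γ → List Bool} {i : γ → List Unit} (hz : PTime O z) (hi : PTime O i) :
    PTime O (fun a => CKP.encI (z a) (i a)) := by
  unfold CKP.encI
  exact PTime.enc (hz.code.consD hi.code)

theorem PTime.zzI {w : γ → List Bool} (hw : PTime O w) : PTime O (fun a => CKP.zzI (w a)) := by
  unfold CKP.zzI
  exact hw.dec.car.toBits

theorem PTime.iiI {w : γ → List Bool} (hw : PTime O w) : PTime O (fun a => CKP.iiI (w a)) := by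
  unfold CKP.iiI
  exact PTime.ulen hw.dec.cdr.toList

theorem zzI_le (w : List Bool) : (zzI w).length ≤ 3 * w.length + 1 := by
  unfold zzI toBits
  rw [List.length_map]
  exact ((length_toList_le _).trans (size_car_le _)).trans (size_dec_le w)

open Classical in
/-- whether some witness has a certain bit -/
noncomputable def BQ (Vf : List Bool → ℕ → Bool) : Lang := fun w =>
  decide (∃ v, Vf (zzI w) v = true ∧ (v / 2 ^ (iiI w).length).bodd = true)

theorem BQ_iff {Vf : List Bool → ℕ → Bool} {w : List Bool} : BQ Vf w = true ↔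
    ∃ v, Vf (zzI w) v = true ∧ (v / 2 ^ (iiI w).length).bodd = true := by
  simp only [BQ, decide_eq_true_eq]

theorem BQ_inNP {Vf : List Bool → ℕ → Bool} {g : ℕ → ℕ}
    (hVf : PTime O (fun p : List Bool × ℕ => Vf p.1 p.2)) (hg : UPoly O g)
    (hb : ∀ z v, Vf z v = true → v < 2 ^ g z.length) : InNP O (BQ Vf) := by
  obtain ⟨P, hP⟩ := hg.bound
  refine inNP_of (V := fun p : List Bool × List Bool => Vf (CKP.zzI p.1) (CKP.ofBits p.2) &&
    (CKP.ofBits p.2 / 2 ^ (CKP.iiI p.1).length).bodd) ?_ (B := fun n => P.eval (3 * n + 1)) ?_ ?_ ?_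
  · have h1 := PTime.ofBits (PTime.id (O := O) (α := List Bool × List Bool)).snd
    exact (hVf.comp ((PTime.zzI PTime.id.fst).pair h1)).and
      (PTime.bitat h1 (PTime.iiI PTime.id.fst))
  · have := UPoly.poly (O := O) (P.comp (3 * Polynomial.X + 1))
    simpa [Polynomial.eval_comp] using this
  · intro w hw
    obtain ⟨v, hv, hv2⟩ := BQ_iff.mp hw
    refine ⟨v.bits, ?_, ?_⟩
    · have h1 := bits_length_le (hb _ _ hv)
      exact h1.trans ((hP _).trans (poly_mono P (zzI_le w)))
    · simp [hv, hv2]
  · intro w y hy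
    rw [Bool.and_eq_true] at hy
    exact BQ_iff.mpr ⟨_, hy.1, hy.2⟩

/-- **Search for unique witnesses**, from truth-table reductions to the left cut. -/
theorem unique_search {W : ℕ → ℕ → Bool} {ℓ : ℕ → ℕ} (hver : Ver O W ℓ)
    (hard : ∀ A, InNP O A → TTReducible O A (RL W ℓ))
    {Vf : List Bool → ℕ → Bool} {g : ℕ → ℕ}
    (hVf : PTime O (fun p : List Bool × ℕ => Vf p.1 p.2)) (hg : UPoly O g)
    (hb : ∀ z v, Vf z v = true → v < 2 ^ g z.length) :
    ∃ F : List Bool → List ℕ, PTime O F ∧ ∀ z v, Vf z v = true →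
      (∀ v', Vf z v' = true → v' = v) → v ∈ F z := by
  obtain ⟨Q, V, hQ, hV, hQV⟩ := tt_data (hard _ (BQ_inNP hVf hg hb))
  let X : List Bool → List (List Bool) := fun z =>
    (CKP.rangeU (List.replicate (g z.length) ())).flatMap fun i => Q (CKP.encI z i)
  have hX : PTime O X := by
    refine PTime.flatMap (f := fun (z : List Bool) (i : List Unit) => Q (CKP.encI z i))
      (PTime.rangeU (UPoly.comp hg PTime.id)) ?_
    exact hQ.comp (PTime.encI PTime.id.fst PTime.id.snd)
  let bitF : List Bool → Bool × ℕ → List Unit → Bool := fun z cd i =>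
    V (CKP.encI z i) ((Q (CKP.encI z i)).map fun q => CKP.ansR ℓ (CKP.maxM (X z)) cd q)
  refine ⟨fun z => (CKP.candR ℓ (X z)).map fun cd =>
    CKP.ofBits ((CKP.rangeU (List.replicate (g z.length) ())).map fun i => bitF z cd i), ?_, ?_⟩
  · refine PTime.map (f := fun z cd => CKP.ofBits
      ((CKP.rangeU (List.replicate (g z.length) ())).map fun i => bitF z cd i))
      (PTime.candR hver.hl hX) ?_
    refine PTime.ofBits ?_
    refine PTime.map (f := fun (p : List Bool × (Bool × ℕ)) i => bitF p.1 p.2 i)
      (PTime.rangeU (UPoly.comp hg PTime.id.fst)) ?_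
    have h1 : PTime O (fun p : (List Bool × (Bool × ℕ)) × List Unit =>
        CKP.encI p.1.1 p.2) := PTime.encI PTime.id.fst.fst PTime.id.snd
    refine hV.comp (h1.pair ?_)
    refine PTime.map (f := fun (p : (List Bool × (Bool × ℕ)) × List Unit) q =>
      CKP.ansR ℓ (CKP.maxM (X p.1.1)) p.1.2 q) (hQ.comp h1) ?_
    exact PTime.ansR hver.hl (PTime.maxM (hX.comp PTime.id.fst.fst.fst)) PTime.id.fst.fst.snd
      PTime.id.snd
  · intro z v hv huniq
    obtain ⟨cd, hcd, hans⟩ := candR_spec (W := W) hver.hb (X z)
    refine List.mem_map.mpr ⟨cd, hcd, ?_⟩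
    have hbit : ∀ i < g z.length, bitF z cd (List.replicate i ()) = (v / 2 ^ i).bodd := by
      intro i hi
      have h1 : BQ Vf (CKP.encI z (List.replicate i ())) = (v / 2 ^ i).bodd := by
        rw [Bool.eq_iff_iff, BQ_iff, zzI_enc, iiI_enc, List.length_replicate]
        constructor
        · rintro ⟨v', h2, h3⟩
          rw [huniq v' h2] at h3
          exact h3
        · intro h2
          exact ⟨v, hv, h2⟩
      rw [← h1, hQV]
      show V _ _ = V _ _
      congr 1
      refine List.map_congr_left fun q hq => ?_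
      refine hans q (List.mem_flatMap.mpr ⟨List.replicate i (), ?_, hq⟩)
      rw [rangeU_replicate]
      exact List.mem_map.mpr ⟨i, List.mem_range.mpr hi, rfl⟩
    rw [rangeU_replicate, List.map_map]
    have h2 : (List.range (g z.length)).map ((fun i => bitF z cd i) ∘
        fun i => List.replicate i ()) = (List.range (g z.length)).map fun i =>
          (v / 2 ^ i).bodd := by
      refine List.map_congr_left fun i hi => ?_
      exact hbit i (List.mem_range.mp hi)
    rw [h2, ofBits_range]
    exact Nat.mod_eq_of_lt (hb z v hv)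

end Pool.Agent.CKP
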