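import Pool.Agent.Lib_helper20.KY.D1
import Pool.Agent.Lib_helper74.NE.ExtB
import Pool.Agent.Lib_helper57.YR.C

/-!
# The isolation lemma (Mulmuley, Vazirani, Vazirani), for weights read in a random string
-/

set_option autoImplicit false
set_option linter.unusedSectionVars false

namespace Pool.Agent.CKP

/-- the weight of a number: the sum of the weights of its digits -/
def wtv (n : ℕ) (ω : ℕ → ℕ) (v : ℕ) : ℕ :=
  ((List.range n).map fun i => if (v / 2 ^ i).bodd = true then ω i else 0).sum

theorem wtv_succ (n : ℕ) (ω : ℕ → ℕ) (v : ℕ) :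
    wtv (n + 1) ω v = wtv n ω v + if (v / 2 ^ n).bodd = true then ω n else 0 := by
  unfold wtv
  rw [List.range_succ, List.map_append, List.sum_append]
  simp

theorem wtv_congr {n : ℕ} {ω ω' : ℕ → ℕ} (h : ∀ i < n, ω i = ω' i) (v : ℕ) :
    wtv n ω v = wtv n ω' v := by
  unfold wtv
  congr 1
  refine List.map_congr_left fun i hi => ?_
  rw [h i (List.mem_range.mp hi)]

theorem wtv_update {n i : ℕ} (hi : i < n) (ω : ℕ → ℕ) (v : ℕ) :
    wtv n ω v = wtv n (Function.update ω i 0) v +
      if (v / 2 ^ i).bodd = true then ω i else 0 := by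
  induction n with
  | zero => exact absurd hi (Nat.not_lt_zero _)
  | succ n ih =>
    rw [wtv_succ, wtv_succ]
    rcases Nat.lt_or_ge i n with h | h
    · rw [ih h, Function.update_of_ne (by omega)]
      omega
    · have h1 : i = n := by omega
      subst h1
      rw [Function.update_self]
      have h2 : wtv i ω v = wtv i (Function.update ω i 0) v :=
        wtv_congr (fun j hj => by rw [Function.update_of_ne (by omega)]) v
      rw [h2]
      simp

theorem wtv_le {n : ℕ} {ω : ℕ → ℕ} {B : ℕ} (h : ∀ i < n, ω i ≤ B) (v : ℕ) :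
    wtv n ω v ≤ n * B := by
  induction n with
  | zero => simp [wtv]
  | succ n ih =>
    rw [wtv_succ]
    have h1 := ih fun i hi => h i (by omega)
    have h2 := h n (by omega)
    have h3 : (n + 1) * B = n * B + B := by ring
    split_ifs <;> omega

/-- the weights read in a string -/
def wBs (e : ℕ) (ρ : List Bool) (i : ℕ) : ℕ := ofBits ((ρ.drop (i * e)).take e)

theorem wBs_lt {e : ℕ} {ρ : List Bool} {i : ℕ} : wBs e ρ i < 2 ^ e := by
  unfold wBs
  refine lt_of_lt_of_le (ofBits_lt _) (Nat.pow_le_pow_right (by norm_num) ?_)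
  rw [List.length_take]
  omega

theorem ofBits_inj : ∀ {l l' : List Bool}, l.length = l'.length → ofBits l = ofBits l' → l = l' := by
  intro l
  induction l with
  | nil =>
    intro l' h _
    exact (List.length_eq_zero_iff.mp h.symm).symm
  | cons b t ih =>
    intro l' h1 h2
    cases l' with
    | nil => simp at h1
    | cons b' t' =>
      rw [ofBits_cons, ofBits_cons, Nat.bit_val, Nat.bit_val] at h2
      have h3 : b = b' := by
        cases b <;> cases b' <;> simp at h2 ⊢ <;> omega
      subst h3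
      have h4 : ofBits t = ofBits t' := by omega
      rw [ih (by simpa using h1) h4]

/-- the difference of the least weights of the elements without and with digit `i` -/
noncomputable def fI (n : ℕ) (S : ℕ → Prop) (i : ℕ) (ω : ℕ → ℕ) : ℕ :=
  sInf {w | ∃ v, S v ∧ (v / 2 ^ i).bodd = false ∧ wtv n ω v = w} -
    sInf {w | ∃ v, S v ∧ (v / 2 ^ i).bodd = true ∧ wtv n ω v = w}

theorem sInf_of_min {S : ℕ → Prop} {f : ℕ → ℕ} {v : ℕ} (hv : S v)
    (h : ∀ u, S u → f v ≤ f u) : sInf {w | ∃ u, S u ∧ f u = w} = f v := by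
  refine le_antisymm (Nat.sInf_le ⟨v, hv, rfl⟩) ?_
  have h1 : sInf {w | ∃ u, S u ∧ f u = w} ∈ {w | ∃ u, S u ∧ f u = w} :=
    Nat.sInf_mem ⟨_, v, hv, rfl⟩
  obtain ⟨u, hu, hw⟩ := h1
  rw [← hw]
  exact h u hu

theorem fI_eq {n i : ℕ} {S : ℕ → Prop} {ω : ℕ → ℕ} (hi : i < n) {v v' : ℕ} (hv : S v)
    (hv' : S v') (h1 : (v / 2 ^ i).bodd = true) (h0 : (v' / 2 ^ i).bodd = false)
    (hmin : ∀ u, S u → wtv n ω v ≤ wtv n ω u) (hmin' : ∀ u, S u → wtv n ω v' ≤ wtv n ω u) :
    ω i = fI n S i (Function.update ω i 0) := by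
  have hA : sInf {w | ∃ u, (S u ∧ (u / 2 ^ i).bodd = true) ∧
      wtv n (Function.update ω i 0) u = w} = wtv n (Function.update ω i 0) v := by
    refine sInf_of_min ⟨hv, h1⟩ fun u hu => ?_
    have h2 := hmin u hu.1
    rw [wtv_update hi ω v, wtv_update hi ω u, if_pos h1, if_pos hu.2] at h2
    omega
  have hB : sInf {w | ∃ u, (S u ∧ (u / 2 ^ i).bodd = false) ∧
      wtv n (Function.update ω i 0) u = w} = wtv n (Function.update ω i 0) v' := by
    refine sInf_of_min ⟨hv', h0⟩ fun u hu => ?_
    have h2 := hmin' u hu.1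
    rw [wtv_update hi ω v', wtv_update hi ω u, if_neg (by simp [h0]), if_neg (by simp [hu.2])]
      at h2
    omega
  simp only [and_assoc] at hA hB
  unfold fI
  rw [hA, hB]
  have h3 := hmin v' hv'
  have h4 := hmin' v hv
  have h5 := wtv_update hi ω v
  have h6 := wtv_update hi ω v'
  rw [if_pos h1] at h5
  rw [if_neg (by simp [h0])] at h6
  omega

/-- few strings are bad for the digit `i` -/
theorem bad_card {n e K : ℕ} (S : ℕ → Prop) {i : ℕ} (hi : i < n) (hK : n * e ≤ K) :
    Nat.card {ρ : List Bool // ρ.length = K ∧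
      wBs e ρ i = fI n S i (Function.update (wBs e ρ) i 0)} ≤ 2 ^ (K - e) := by
  have hie : (i + 1) * e ≤ K := (Nat.mul_le_mul_right e hi).trans hK
  have hie' : i * e + e ≤ K := by
    have : (i + 1) * e = i * e + e := by ring
    omega
  rw [← d1_card (K - e)]
  have := d1_finite (K - e)
  refine Nat.card_le_card_of_injective (fun ρ => (⟨ρ.1.take (i * e) ++ ρ.1.drop (i * e + e), ?_⟩ :
    {y : List Bool // y.length = K - e})) ?_
  · rw [List.length_append, List.length_take, List.length_drop, ρ.2.1]
    omega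
  · rintro ⟨ρ, hρ, h1⟩ ⟨σ, hσ, h2⟩ h
    simp only [Subtype.mk.injEq] at h ⊢
    have hlen : (ρ.take (i * e)).length = (σ.take (i * e)).length := by
      rw [List.length_take, List.length_take, hρ, hσ]
    obtain ⟨h3, h4⟩ := List.append_inj h hlen
    -- the other weights are the same
    have hw : ∀ j, j ≠ i → wBs e ρ j = wBs e σ j := by
      intro j hj
      unfold wBs
      congr 1
      rcases Nat.lt_or_ge j i with h5 | h5
      · have h6 : j * e + e ≤ i * e := by
          have : (j + 1) * e ≤ i * e := Nat.mul_le_mul_right e h5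
          have h7 : (j + 1) * e = j * e + e := by ring
          omega
        have h8 : ∀ τ : List Bool, (τ.drop (j * e)).take e =
            (((τ.take (i * e)).drop (j * e)).take e) := by
          intro τ
          rw [List.drop_take, List.take_take]
          congr 1
          omega
        rw [h8 ρ, h8 σ, h3]
      · have h6 : i * e + e ≤ j * e := by
          have : (i + 1) * e ≤ j * e := Nat.mul_le_mul_right e (by omega)
          have h7 : (i + 1) * e = i * e + e := by ring
          omega
        have h8 : ∀ τ : List Bool, τ.drop (j * e) =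
            (τ.drop (i * e + e)).drop (j * e - (i * e + e)) := by
          intro τ
          rw [List.drop_drop]
          congr 1
          omega
        rw [h8 ρ, h8 σ, h4]
    have hupd : Function.update (wBs e ρ) i 0 = Function.update (wBs e σ) i 0 := by
      funext j
      by_cases hj : j = i
      · subst hj
        rw [Function.update_self, Function.update_self]
      · rw [Function.update_of_ne hj, Function.update_of_ne hj, hw j hj]
    rw [hupd, ← h2] at h1
    have h9 : (ρ.drop (i * e)).take e = (σ.drop (i * e)).take e := by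
      refine ofBits_inj ?_ h1
      rw [List.length_take, List.length_take, List.length_drop, List.length_drop, hρ, hσ]
    have h10 : ∀ τ : List Bool, τ = τ.take (i * e) ++ ((τ.drop (i * e)).take e ++
        τ.drop (i * e + e)) := by
      intro τ
      have h11 : (τ.drop (i * e)).take e ++ τ.drop (i * e + e) = τ.drop (i * e) := by
        rw [← List.drop_drop, List.take_append_drop]
      rw [h11, List.take_append_drop]
    rw [h10 ρ, h10 σ, h3, h4, h9]

theorem bad_union {n e K : ℕ} (S : ℕ → Prop) (hK : n * e ≤ K) (m : ℕ) (hm : m ≤ n) :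
    Nat.card {ρ : List Bool // ρ.length = K ∧ ∃ i < m,
      wBs e ρ i = fI n S i (Function.update (wBs e ρ) i 0)} ≤ m * 2 ^ (K - e) := by
  induction m with
  | zero =>
    rw [Nat.zero_mul]
    have : IsEmpty {ρ : List Bool // ρ.length = K ∧ ∃ i < 0,
        wBs e ρ i = fI n S i (Function.update (wBs e ρ) i 0)} :=
      ⟨fun ρ => by
        obtain ⟨i, hi, -⟩ := ρ.2.2
        exact absurd hi (Nat.not_lt_zero _)⟩
    rw [Nat.card_of_isEmpty]
  | succ m ih =>
    have h1 := ih (by omega)
    have h2 := bad_card S (e := e) (K := K) (i := m) (n := n) (by omega) hK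
    have hf := List.finite_length_eq Bool K
    have h3 : ({ρ : List Bool | ρ.length = K ∧ ∃ i < m + 1,
        wBs e ρ i = fI n S i (Function.update (wBs e ρ) i 0)}).ncard ≤
        ({ρ : List Bool | ρ.length = K ∧ ∃ i < m,
          wBs e ρ i = fI n S i (Function.update (wBs e ρ) i 0)} ∪
        {ρ : List Bool | ρ.length = K ∧
          wBs e ρ m = fI n S m (Function.update (wBs e ρ) m 0)}).ncard := by
      refine Set.ncard_le_ncard ?_ ((hf.subset fun _ h => h.1).union (hf.subset fun _ h => h.1))
      rintro ρ ⟨h4, i, hi, h5⟩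
      rcases Nat.lt_or_ge i m with h6 | h6
      · exact Or.inl ⟨h4, i, h6, h5⟩
      · have h7 : i = m := by omega
        subst h7
        exact Or.inr ⟨h4, h5⟩
    have h4 := Set.ncard_union_le {ρ : List Bool | ρ.length = K ∧ ∃ i < m,
          wBs e ρ i = fI n S i (Function.update (wBs e ρ) i 0)}
        {ρ : List Bool | ρ.length = K ∧
          wBs e ρ m = fI n S m (Function.update (wBs e ρ) m 0)}
    have h5 : (m + 1) * 2 ^ (K - e) = m * 2 ^ (K - e) + 2 ^ (K - e) := by ring
    rw [h5]
    exact h3.trans (h4.trans (Nat.add_le_add h1 h2))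

/-- **Isolation lemma**: for at least half of the strings the element of least weight is unique. -/
theorem isolation {n e K : ℕ} {S : ℕ → Prop} (hne : ∃ v, S v) (hS : ∀ v, S v → v < 2 ^ n)
    (hK : n * e ≤ K) (he : 2 * n ≤ 2 ^ e) (heK : e ≤ K) :
    2 ^ K ≤ 2 * Nat.card {ρ : List Bool // ρ.length = K ∧
      ∃ v, S v ∧ ∀ v', S v' → wtv n (wBs e ρ) v' ≤ wtv n (wBs e ρ) v → v' = v} := by
  have h1 := d1_compl K fun ρ => ∃ v, S v ∧ ∀ v', S v' →
    wtv n (wBs e ρ) v' ≤ wtv n (wBs e ρ) v → v' = v
  have h2 : Nat.card {ρ : List Bool // ρ.length = K ∧ ¬ ∃ v, S v ∧ ∀ v', S v' →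
      wtv n (wBs e ρ) v' ≤ wtv n (wBs e ρ) v → v' = v} ≤
      Nat.card {ρ : List Bool // ρ.length = K ∧ ∃ i < n,
        wBs e ρ i = fI n S i (Function.update (wBs e ρ) i 0)} := by
    have := d1_finite' K fun ρ => ∃ i < n,
        wBs e ρ i = fI n S i (Function.update (wBs e ρ) i 0)
    refine Nat.card_le_card_of_injective (fun ρ => ⟨ρ.1, ρ.2.1, ?_⟩) ?_
    · obtain ⟨ρ, hρ, hbad⟩ := ρ
      simp only
      -- an element of least weight
      obtain ⟨v, hv, hmin⟩ : ∃ v, S v ∧ ∀ u, S u → wtv n (wBs e ρ) v ≤ wtv n (wBs e ρ) u := by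
        have h3 : sInf {w | ∃ u, S u ∧ wtv n (wBs e ρ) u = w} ∈
            {w | ∃ u, S u ∧ wtv n (wBs e ρ) u = w} := by
          obtain ⟨v, hv⟩ := hne
          exact Nat.sInf_mem ⟨_, v, hv, rfl⟩
        obtain ⟨v, hv, hw⟩ := h3
        refine ⟨v, hv, fun u hu => ?_⟩
        rw [hw]
        exact Nat.sInf_le ⟨u, hu, rfl⟩
      push Not at hbad
      obtain ⟨v', hv', hle, hne'⟩ := hbad v hv
      have hmin' : ∀ u, S u → wtv n (wBs e ρ) v' ≤ wtv n (wBs e ρ) u := fun u hu =>
        hle.trans (hmin u hu)
      -- a digit in which they differ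
      obtain ⟨i, hi, hd⟩ : ∃ i < n, (v' / 2 ^ i).bodd ≠ (v / 2 ^ i).bodd := by
        by_contra hcon
        push Not at hcon
        apply hne'
        have h3 := ofBits_range n v'
        have h4 := ofBits_range n v
        rw [Nat.mod_eq_of_lt (hS v' hv')] at h3
        rw [Nat.mod_eq_of_lt (hS v hv)] at h4
        rw [← h3, ← h4]
        congr 1
        exact List.map_congr_left fun i hi => hcon i (List.mem_range.mp hi)
      refine ⟨i, hi, ?_⟩
      cases h5 : (v / 2 ^ i).bodd
      · have h6 : (v' / 2 ^ i).bodd = true := by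
          cases h7 : (v' / 2 ^ i).bodd
          · rw [h5, h7] at hd
            exact absurd rfl hd
          · rfl
        exact fI_eq hi hv' hv h6 h5 hmin' hmin
      · have h6 : (v' / 2 ^ i).bodd = false := by
          cases h7 : (v' / 2 ^ i).bodd
          · rfl
          · rw [h5, h7] at hd
            exact absurd rfl hd
        exact fI_eq hi hv hv' h5 h6 hmin hmin'
    · rintro ⟨ρ, hρ⟩ ⟨σ, hσ⟩ h
      simpa using h
  have h3 := bad_union S hK n le_rfl
  have h4 : 2 * (n * 2 ^ (K - e)) ≤ 2 ^ K := by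
    calc 2 * (n * 2 ^ (K - e)) = (2 * n) * 2 ^ (K - e) := by ring
      _ ≤ 2 ^ e * 2 ^ (K - e) := Nat.mul_le_mul_right _ he
      _ = 2 ^ K := by rw [← pow_add]; congr 1; omega
  omega

end Pool.Agent.CKP
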