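import Pool.Agent.Lib_helper57.YR.Classes
import Pool.Agent.Lib_helper57.YR.D
import Pool.Agent.Lib_helper74.KY.Blk.R2

/-!
# Truth-table completeness: `NP = RP` and `P = UP` (MP_675993_lc)
-/

set_option autoImplicit false
set_option linter.unusedSectionVars false

namespace Pool.Agent.CKP

open Pool.Agent.CK

variable {O : Lang}
variable {α β γ δ : Type} [ToD α] [ToD β] [ToD γ] [ToD δ]

/-! ### instances with a random string and a threshold -/

/-- an instance with a random string and a threshold -/
def enc3 (x ρ : List Bool) (c : List Unit) : List Bool :=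
  (D.cons (toD x) (D.cons (toD ρ) (toD c))).enc
/-- the instance -/
def e3x (w : List Bool) : List Bool := toBits (dec w).car
/-- the random string -/
def e3r (w : List Bool) : List Bool := toBits (dec w).cdr.car
/-- the threshold, in unary -/
def e3c (w : List Bool) : List Unit := ulen (toList (dec w).cdr.cdr)

theorem e3x_enc (x ρ : List Bool) (c : List Unit) : e3x (enc3 x ρ c) = x := by
  unfold e3x enc3
  rw [dec_enc]
  exact toBits_toD x

theorem e3r_enc (x ρ : List Bool) (c : List Unit) : e3r (enc3 x ρ c) = ρ := by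
  unfold e3r enc3
  rw [dec_enc]
  exact toBits_toD ρ

theorem e3c_enc (x ρ : List Bool) (c : List Unit) : (e3c (enc3 x ρ c)).length = c.length := by
  unfold e3c enc3
  rw [dec_enc]
  show (ulen (toList (toD c))).length = _
  rw [ulen_eq, List.length_replicate, toList_toD, List.length_map]

theorem PTime.enc3 {x ρ : γ → List Bool} {c : γ → List Unit} (hx : PTime O x) (hρ : PTime O ρ)
    (hc : PTime O c) : PTime O (fun a => CKP.enc3 (x a) (ρ a) (c a)) := by
  unfold CKP.enc3
  exact PTime.enc (hx.code.consD (hρ.code.consD hc.code))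

theorem PTime.e3x {w : γ → List Bool} (hw : PTime O w) : PTime O (fun a => CKP.e3x (w a)) := by
  unfold CKP.e3x
  exact hw.dec.car.toBits
theorem PTime.e3r {w : γ → List Bool} (hw : PTime O w) : PTime O (fun a => CKP.e3r (w a)) := by
  unfold CKP.e3r
  exact hw.dec.cdr.car.toBits
theorem PTime.e3c {w : γ → List Bool} (hw : PTime O w) : PTime O (fun a => CKP.e3c (w a)) := by
  unfold CKP.e3c
  exact PTime.ulen hw.dec.cdr.cdr.toList

theorem e3x_le (w : List Bool) : (e3x w).length ≤ 3 * w.length + 1 := by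
  unfold e3x toBits
  rw [List.length_map]
  exact ((length_toList_le _).trans (size_car_le _)).trans (size_dec_le w)

/-! ### weights -/

/-- the number of bits of a weight: `2 n < 2 ^ eI n ≤ 4 n` for `n > 0` -/
def eI (n : ℕ) : ℕ := (2 * n).bits.length

theorem eI_lo (n : ℕ) : 2 * n ≤ 2 ^ eI n := by
  unfold eI
  rw [Nat.size_eq_bits_len]
  exact (Nat.lt_size_self (2 * n)).le

theorem eI_hi {n : ℕ} (hn : 1 ≤ n) : 2 ^ eI n ≤ 4 * n := by
  unfold eI
  rw [Nat.size_eq_bits_len]
  have h1 : (2 * n).size = (2 * n / 2).size + 1 := by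
    have h2 := num_size_div2 (n := 2 * n) (by omega)
    rw [Nat.div2_val] at h2
    exact h2
  have h2 : 2 * n / 2 = n := by omega
  rw [h2] at h1
  rw [h1, pow_succ]
  have h3 : 2 ^ (n.size - 1) ≤ n := by
    by_contra h4
    rw [not_le] at h4
    have h5 := Nat.size_le.mpr h4
    have h6 : 0 < n.size := Nat.size_pos.mpr hn
    omega
  have h4 : 0 < n.size := Nat.size_pos.mpr hn
  have h5 : 2 ^ n.size = 2 ^ (n.size - 1) * 2 := by
    rw [← pow_succ]
    congr 1
    omega
  omega

theorem eI_upoly : UPoly O eI := by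
  have h1 : PTime O (fun u : List Unit => (2 * u.length).bits) := by
    have h2 : PTime O (fun u : List Unit => (List.replicate (2 * u.length) ()).length) :=
      PTime.length (UPoly.mul (UPoly.const 2) UPoly.id)
    simp only [List.length_replicate] at h2
    exact h2.bits
  refine (PTime.ulen h1).of_eq fun u => ?_
  rw [ulen_eq]
  rfl

theorem PTime.wtv {n e : γ → List Unit} {ρ : γ → List Bool} {v : γ → ℕ} (hn : PTime O n)
    (he : PTime O e) (hρ : PTime O ρ) (hv : PTime O v) :
    PTime O (fun a => CKP.wtv (n a).length (wBs (e a).length (ρ a)) (v a)) := by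
  have h1 : PTime O (fun a => ((CKP.rangeU (n a)).map fun i =>
      if (v a / 2 ^ i.length).bodd = true then
        CKP.ofBits (((ρ a).drop (CKP.umul i (e a)).length).take (e a).length) else 0).sum) := by
    refine PTime.sum (f := fun a i => if (v a / 2 ^ (List.length i)).bodd = true then
        CKP.ofBits (((ρ a).drop (CKP.umul i (e a)).length).take (e a).length) else 0)
        (PTime.rangeU hn) ?_
    refine PTime.ite (PTime.bitat (hv.comp PTime.id.fst) PTime.id.snd) ?_ (PTime.const 0)
    exact PTime.ofBits (PTime.taken (he.comp PTime.id.fst) (PTime.dropn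
      (PTime.umul PTime.id.snd (he.comp PTime.id.fst)) (hρ.comp PTime.id.fst)))
  refine h1.of_eq fun a => ?_
  obtain ⟨m, hm⟩ : ∃ m, n a = List.replicate m () := ⟨_, (yunits_eq _).symm⟩
  obtain ⟨k, hk⟩ : ∃ k, e a = List.replicate k () := ⟨_, (yunits_eq _).symm⟩
  rw [hm, hk, rangeU_replicate, List.map_map, List.length_replicate, List.length_replicate]
  unfold CKP.wtv wBs
  congr 1
  refine List.map_congr_left fun i _ => ?_
  simp only [Function.comp_apply, List.length_replicate]
  rw [umul_replicate, List.length_replicate]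

/-! ### the search problem -/

/-- `v` codes a witness for the instance `x` of the universal language -/
def wit (O : Lang) (x : List Bool) (v : ℕ) : Bool :=
  decide (v = ofBits (v.bits.dropLast ++ [true])) && VU O (x, v.bits.dropLast)

theorem PTime.wit {x : γ → List Bool} {v : γ → ℕ} (hx : PTime O x) (hv : PTime O v) :
    PTime O (fun a => CKP.wit O (x a) (v a)) := by
  unfold CKP.wit
  exact (PTime.nat_eq hv (PTime.ofBits (PTime.append (PTime.dropLast hv.bits)
    (PTime.const [true])))).and (PTime.VU hx (PTime.dropLast hv.bits))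

theorem wit_lt {x : List Bool} {v : ℕ} (h : wit O x v = true) : v < 2 ^ (x.length + 1) := by
  unfold wit at h
  rw [Bool.and_eq_true, decide_eq_true_eq] at h
  obtain ⟨h1, h2⟩ := h
  unfold VU at h2
  rw [Bool.and_eq_true, Bool.and_eq_true, decide_eq_true_eq] at h2
  rw [h1]
  refine lt_of_lt_of_le (ofBits_lt _) (Nat.pow_le_pow_right (by norm_num) ?_)
  rw [List.length_append, List.length_singleton]
  have := h2.1.1
  simp only at this
  omega

theorem wit_sound {x : List Bool} {v : ℕ} (h : wit O x v = true) : UK O x = true := by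
  unfold wit at h
  rw [Bool.and_eq_true] at h
  exact UK_of_VU h.2

theorem wit_exists {x : List Bool} (h : UK O x = true) : ∃ v, wit O x v = true := by
  obtain ⟨y, -, hy⟩ := (UK_iff x).mp h
  refine ⟨ofBits (y ++ [true]), ?_⟩
  unfold wit
  rw [bits_ofBits_snoc, List.dropLast_concat, hy]
  simp

/-- `v` codes a witness for `x` of weight at most `c`, for the weights given by `ρ` -/
def VfI (O : Lang) (w : List Bool) (v : ℕ) : Bool :=
  wit O (e3x w) v && decide (wtv ((e3x w).length + 1)
    (wBs (eI ((e3x w).length + 1)) (e3r w)) v ≤ (e3c w).length)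

theorem VfI_ptime : PTime O (fun p : List Bool × ℕ => VfI O p.1 p.2) := by
  have hx : PTime O (fun p : List Bool × ℕ => CKP.e3x p.1) := PTime.e3x PTime.id.fst
  have hn : PTime O (fun p : List Bool × ℕ =>
      List.replicate ((CKP.e3x p.1).length + 1) ()) :=
    UPoly.comp (g := fun n => n + 1) (UPoly.id.add (UPoly.const 1)) hx
  have he : PTime O (fun p : List Bool × ℕ =>
      List.replicate (eI ((CKP.e3x p.1).length + 1)) ()) := by
    have := UPoly.comp (g := eI) eI_upoly hn
    simpa only [List.length_replicate] using this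
  have h1 : PTime O (fun p : List Bool × ℕ => CKP.wit O (CKP.e3x p.1) p.2) :=
    PTime.wit hx PTime.id.snd
  have h2 := PTime.wtv (v := fun p : List Bool × ℕ => p.2) hn he (PTime.e3r PTime.id.fst)
    PTime.id.snd
  simp only [List.length_replicate] at h2
  unfold VfI
  exact h1.and (PTime.nat_le h2 (PTime.length (PTime.e3c PTime.id.fst)))

theorem VfI_lt {w : List Bool} {v : ℕ} (h : VfI O w v = true) : v < 2 ^ (3 * w.length + 2) := by
  unfold VfI at h
  rw [Bool.and_eq_true] at h
  have h1 := e3x_le w
  exact lt_of_lt_of_le (wit_lt h.1) (Nat.pow_le_pow_right (by norm_num) (by omega))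

/-- a bound for the weights -/
def CI (n : ℕ) : ℕ := n * (4 * n) + 1

/-- the decision with a random string -/
def decI (O : Lang) (F : List Bool → List ℕ) (x ρ : List Bool) : Bool :=
  (rangeU (List.replicate (CI (x.length + 1)) ())).any fun c =>
    (F (enc3 x ρ c)).any fun v => wit O x v

theorem decI_ptime {F : List Bool → List ℕ} (hF : PTime O F) :
    PTime O (fun p : List Bool × List Bool => decI O F p.1 p.2) := by
  have hC : UPoly O (fun n => CI (n + 1)) := by
    have h0 : UPoly O (fun n : ℕ => n + 1) := UPoly.add UPoly.id (UPoly.const 1)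
    have := (h0.mul ((UPoly.const 4).mul h0)).add (UPoly.const 1)
    exact this
  unfold decI
  refine PTime.any (f := fun (p : List Bool × List Bool) c =>
    (F (CKP.enc3 p.1 p.2 c)).any fun v => CKP.wit O p.1 v)
    (PTime.rangeU (UPoly.comp (g := fun n => CI (n + 1)) hC PTime.id.fst)) ?_
  refine PTime.any (f := fun (q : (List Bool × List Bool) × List Unit) v =>
    CKP.wit O q.1.1 v) (hF.comp (PTime.enc3 PTime.id.fst.fst PTime.id.fst.snd PTime.id.snd)) ?_
  exact PTime.wit PTime.id.fst.fst.fst PTime.id.snd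

theorem decI_sound {F : List Bool → List ℕ} {x ρ : List Bool} (h : decI O F x ρ = true) :
    UK O x = true := by
  unfold decI at h
  rw [List.any_eq_true] at h
  obtain ⟨c, -, h⟩ := h
  rw [List.any_eq_true] at h
  obtain ⟨v, -, h⟩ := h
  exact wit_sound h

theorem decI_complete {F : List Bool → List ℕ}
    (hF : ∀ z v, VfI O z v = true → (∀ v', VfI O z v' = true → v' = v) → v ∈ F z)
    {x ρ : List Bool} {v : ℕ} (hv : wit O x v = true)
    (hu : ∀ v', wit O x v' = true → wtv (x.length + 1) (wBs (eI (x.length + 1)) ρ) v' ≤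
      wtv (x.length + 1) (wBs (eI (x.length + 1)) ρ) v → v' = v) : decI O F x ρ = true := by
  set n := x.length + 1 with hn
  set c := wtv n (wBs (eI n) ρ) v with hc
  have hcC : c < CI n := by
    have h1 : c ≤ n * 2 ^ eI n := wtv_le (fun i _ => wBs_lt.le) v
    have h2 : n * 2 ^ eI n ≤ n * (4 * n) := Nat.mul_le_mul_left n (eI_hi (by omega))
    unfold CI
    omega
  unfold decI
  rw [List.any_eq_true]
  refine ⟨List.replicate c (), ?_, ?_⟩
  · rw [rangeU_replicate]
    exact List.mem_map.mpr ⟨c, List.mem_range.mpr hcC, rfl⟩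
  · rw [List.any_eq_true]
    have hV : ∀ v', VfI O (enc3 x ρ (List.replicate c ())) v' = true ↔
        wit O x v' = true ∧ wtv n (wBs (eI n) ρ) v' ≤ c := by
      intro v'
      unfold VfI
      rw [Bool.and_eq_true, decide_eq_true_eq, e3x_enc, e3r_enc, e3c_enc,
        List.length_replicate]
    refine ⟨v, hF _ v ((hV v).mpr ⟨hv, le_rfl⟩) fun v' h => ?_, hv⟩
    obtain ⟨h1, h2⟩ := (hV v').mp h
    exact hu v' h1 h2

/-! ### the theorems -/

theorem rp_of_tt {W : ℕ → ℕ → Bool} {ℓ : ℕ → ℕ} (hver : Ver O W ℓ)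
    (hard : ∀ A, InNP O A → TTReducible O A (RL W ℓ)) {A : Lang} (hA : InNP O A) : InRP O A := by
  obtain ⟨F, hF, hF'⟩ := unique_search hver hard (Vf := VfI O) (g := fun n => 3 * n + 2)
    VfI_ptime ((UPoly.const 3).mul UPoly.id |>.add (UPoly.const 2)) (fun z v h => VfI_lt h)
  obtain ⟨g, hg, hAg⟩ := UK_hard hA
  obtain ⟨Pg, hPg⟩ := hg.size_le
  have hdec : PTime O (fun p : List Bool × List Bool => decI O F (g p.1) p.2) :=
    PTime.comp (g := fun p : List Bool × List Bool => decI O F p.1 p.2) (decI_ptime hF)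
      ((hg.comp PTime.id.fst).pair PTime.id.snd)
  obtain ⟨p, κ, hp⟩ := run2_dec (V := fun x ρ => decI O F (g x) ρ) hdec
  -- the length of the random string
  obtain ⟨k, hk⟩ := exists_pow (((Pg.comp (4 * Polynomial.X + 1)) + 1) *
    (4 * (Pg.comp (4 * Polynomial.X + 1)) + 4))
  have hlen : ∀ x : List Bool, ((g x).length + 1) * eI ((g x).length + 1) ≤
      (x.length + 2) ^ k ∧ eI ((g x).length + 1) ≤ (x.length + 2) ^ k := by
    intro x
    have g4 : (g x).length ≤ sz (g x) := length_le_sz _
    have g5 := hPg x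
    have g6 := poly_mono Pg (show sz x ≤ 4 * x.length + 1 from size_bits x)
    have g7 : (g x).length ≤ Pg.eval (4 * x.length + 1) := by omega
    have g8 := hk x.length
    simp only [Polynomial.eval_comp, Polynomial.eval_add, Polynomial.eval_mul,
      Polynomial.eval_ofNat, Polynomial.eval_X, Polynomial.eval_one] at g8
    have g9 : eI ((g x).length + 1) ≤ 4 * ((g x).length + 1) :=
      (Nat.lt_two_pow_self).le.trans (eI_hi (by omega))
    have g10 : ((g x).length + 1) * eI ((g x).length + 1) ≤
        (Pg.eval (4 * x.length + 1) + 1) * (4 * Pg.eval (4 * x.length + 1) + 4) :=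
      Nat.mul_le_mul (by omega) (by omega)
    refine ⟨g10.trans g8, le_trans ?_ (g10.trans g8)⟩
    exact Nat.le_mul_of_pos_left _ (by omega)
  refine ⟨p, k, (k + 2) * κ, fun x => ?_⟩
  have htime : ∀ y : List Bool, y.length = (x.length + 2) ^ k →
      (x.length + y.length + 2) ^ κ ≤ (x.length + 2) ^ ((k + 2) * κ) := by
    intro y hy
    rw [pow_mul, hy]
    refine Nat.pow_le_pow_left ?_ κ
    have h1 : x.length + 2 ≤ (x.length + 2) ^ (k + 1) := Nat.le_self_pow (by omega) _
    have h2 : (x.length + 2) ^ k ≤ (x.length + 2) ^ (k + 1) :=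
      Nat.pow_le_pow_right (by omega) (by omega)
    have h3 : (x.length + 2) ^ (k + 2) = (x.length + 2) ^ (k + 1) * (x.length + 2) :=
      pow_succ _ _
    have h4 : (x.length + 2) ^ (k + 1) * 2 ≤ (x.length + 2) ^ (k + 1) * (x.length + 2) :=
      Nat.mul_le_mul_left _ (by omega)
    omega
  have hrun : ∀ y : List Bool, y.length = (x.length + 2) ^ k →
      Halts O p x y ((x.length + 2) ^ ((k + 2) * κ)) ∧
      (Accepts O p x y ((x.length + 2) ^ ((k + 2) * κ)) ↔ decI O F (g x) y = true) := by
    intro y hy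
    obtain ⟨h1, h2⟩ := hp x y
    have h3 := run_stable h1 (htime y hy)
    constructor
    · unfold Halts at h1 ⊢
      rw [h3]
      exact h1
    · rw [← h2]
      unfold Accepts
      rw [h3]
  refine ⟨fun y hy => (hrun y hy).1, fun hx y hy hacc => ?_, fun hx => ?_⟩
  · have h1 := decI_sound ((hrun y hy).2.mp hacc)
    rw [← hAg x, hx] at h1
    exact absurd h1 (by simp)
  · have hU : UK O (g x) = true := by rw [← hAg x, hx]
    have h1 := isolation (n := (g x).length + 1) (e := eI ((g x).length + 1))
      (K := (x.length + 2) ^ k) (S := fun v => wit O (g x) v = true) (wit_exists hU)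
      (fun v hv => wit_lt hv) (hlen x).1 (eI_lo _) (hlen x).2
    refine h1.trans (Nat.mul_le_mul_left 2 ?_)
    have := d1_finite' ((x.length + 2) ^ k) fun y =>
      Accepts O p x y ((x.length + 2) ^ ((k + 2) * κ))
    refine Nat.card_le_card_of_injective (fun ρ => ⟨ρ.1, ρ.2.1, ?_⟩) ?_
    · obtain ⟨ρ, hρ, v, hv, hmin⟩ := ρ
      exact (hrun ρ hρ).2.mpr (decI_complete hF' hv hmin)
    · rintro ⟨ρ, hρ⟩ ⟨σ, hσ⟩ h
      simpa using h

/-- the witnesses of a program -/
def VfU (O : Lang) (c : Cmd) (k : ℕ) (x : List Bool) (v : ℕ) : Bool :=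
  (decide (v = ofBits (v.bits.dropLast ++ [true])) &&
    decide (v.bits.dropLast.length ≤ (List.replicate ((x.length + 2) ^ k) ()).length)) &&
    accU O (cmdD c) x v.bits.dropLast (List.replicate ((x.length + 2) ^ k) ())

theorem p_of_up {W : ℕ → ℕ → Bool} {ℓ : ℕ → ℕ} (hver : Ver O W ℓ)
    (hard : ∀ A, InNP O A → TTReducible O A (RL W ℓ)) {A : Lang} (hA : InUP O A) : InP O A := by
  obtain ⟨c, k, -, hA1, hA2⟩ := hA
  have hN : PTime O (fun p : List Bool × ℕ => List.replicate ((p.1.length + 2) ^ k) ()) :=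
    UPoly.comp (UPoly.tb k) PTime.id.fst
  have hV : PTime O (fun p : List Bool × ℕ => VfU O c k p.1 p.2) := by
    unfold VfU
    have h1 : PTime O (fun p : List Bool × ℕ => p.2.bits.dropLast) :=
      PTime.dropLast (PTime.bits PTime.id.snd)
    exact ((PTime.nat_eq PTime.id.snd (PTime.ofBits (PTime.append h1
      (PTime.const [true])))).and (PTime.nat_le h1.length hN.length)).and
        (PTime.accU (PTime.const (cmdD c)) PTime.id.fst h1 hN)
  have hVi : ∀ x v, VfU O c k x v = true ↔ (v = ofBits (v.bits.dropLast ++ [true]) ∧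
      v.bits.dropLast.length ≤ (x.length + 2) ^ k) ∧
      Accepts O c x v.bits.dropLast ((x.length + 2) ^ k) := by
    intro x v
    unfold VfU
    simp only [Bool.and_eq_true, decide_eq_true_eq, List.length_replicate]
    rw [accU_iff, List.length_replicate]
  have hb : ∀ x v, VfU O c k x v = true → v < 2 ^ ((x.length + 2) ^ k + 1) := by
    intro x v h
    rw [hVi] at h
    rw [h.1.1]
    refine lt_of_lt_of_le (ofBits_lt _) (Nat.pow_le_pow_right (by norm_num) ?_)
    rw [List.length_append, List.length_singleton]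
    exact Nat.add_le_add_right h.1.2 1
  obtain ⟨F, hF, hF'⟩ := unique_search hver hard (Vf := VfU O c k)
    (g := fun n => (n + 2) ^ k + 1) hV ((UPoly.tb k).add (UPoly.const 1)) hb
  have hdec : PTime O (fun x : List Bool => (F x).any fun v => VfU O c k x v) :=
    PTime.any (f := fun x v => VfU O c k x v) hF hV
  refine inP_of (hdec.of_eq fun x => ?_)
  rw [Bool.eq_iff_iff, List.any_eq_true]
  constructor
  · rintro ⟨v, -, hv⟩
    obtain ⟨⟨-, h1⟩, h2⟩ := (hVi x v).mp hv
    exact (hA1 x).mpr ⟨_, h1, h2⟩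
  · intro hx
    obtain ⟨y, hy1, hy2⟩ := (hA1 x).mp hx
    have hv : VfU O c k x (ofBits (y ++ [true])) = true := by
      rw [hVi, bits_ofBits_snoc, List.dropLast_concat]
      exact ⟨⟨rfl, hy1⟩, hy2⟩
    refine ⟨_, hF' x _ hv fun v' hv' => ?_, hv⟩
    obtain ⟨⟨h1, h2⟩, h3⟩ := (hVi x v').mp hv'
    rw [h1, hA2 x _ _ h2 hy1 h3 hy2]

end Pool.Agent.CKP
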