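import Pool.Agent.Lib_helper74.KY.Blk.T1

/-!
# Truth-table completeness: the table of least witnesses as one number (MP_675993_lc)

The table of the least witnesses of `0, ..., n - 1` is coded by one number `NN n`, with `ℓ i + 1` bits
for the entry `i`; the entry `2 ^ ℓ i` means that there is no witness.  The number `NN n` is the least
number `y` such that all entries of `y` that are given are witnesses (`W2 n y`).
-/

set_option autoImplicit false
set_option linter.unusedSectionVars false

namespace Pool.Agent.CKP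

open Pool.Agent.CK

variable {O : Lang}
variable {α β γ δ : Type} [ToD α] [ToD β] [ToD γ] [ToD δ]

/-! ### tools -/

/-- the first elements of a list, as many as the unary number says -/
def ytake (u : List γ) (l : List α) : List α := (udrop (udrop u l) l.reverse).reverse

theorem ytake_eq (u : List γ) (l : List α) : ytake u l = l.take u.length := by
  unfold ytake
  rw [udrop_eq, udrop_eq, List.length_drop, ← List.reverse_take, List.reverse_reverse]

theorem PTime.ytake {u : δ → List γ} {l : δ → List α} (hu : PTime O u) (hl : PTime O l) :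
    PTime O (fun x => CKP.ytake (u x) (l x)) := by
  unfold CKP.ytake
  exact ((hu.udrop hl).udrop hl.reverse).reverse

theorem PTime.taken {u : δ → List γ} {l : δ → List α} (hu : PTime O u) (hl : PTime O l) :
    PTime O (fun x => (l x).take (u x).length) :=
  (hu.ytake hl).of_eq fun x => ytake_eq _ _

theorem PTime.dropn {u : δ → List γ} {l : δ → List α} (hu : PTime O u) (hl : PTime O l) :
    PTime O (fun x => (l x).drop (u x).length) :=
  (hu.udrop hl).of_eq fun x => udrop_eq _ _

theorem ofBits_take (k : ℕ) : ∀ l : List Bool, ofBits (l.take k) = ofBits l % 2 ^ k := by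
  induction k with
  | zero => intro l; simp [Nat.mod_one]
  | succ k ih =>
    intro l
    cases l with
    | nil => simp
    | cons b t =>
      rw [List.take_succ_cons, ofBits_cons, ih, ofBits_cons, Nat.bit_val, Nat.bit_val, pow_succ]
      have h1 : 0 < 2 ^ k := Nat.two_pow_pos k
      set a := ofBits t
      have h2 := Nat.div_add_mod a (2 ^ k)
      have h3 := Nat.mod_lt a h1
      have h4 : 2 * a + b.toNat = (2 ^ k * 2) * (a / 2 ^ k) + (2 * (a % 2 ^ k) + b.toNat) := by
        rw [← h2]
        have : (2 ^ k * (a / 2 ^ k) + a % 2 ^ k) % 2 ^ k = a % 2 ^ k := by rw [h2]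
        have h5 : (2 ^ k * (a / 2 ^ k) + a % 2 ^ k) / 2 ^ k = a / 2 ^ k := by rw [h2]
        rw [this, h5]
        ring
      rw [h4, Nat.mul_add_mod]
      symm
      apply Nat.mod_eq_of_lt
      cases b <;> simp <;> omega

theorem PTime.modp {u : δ → List γ} {n : δ → ℕ} (hu : PTime O u) (hn : PTime O n) :
    PTime O (fun x => n x % 2 ^ (u x).length) :=
  (PTime.ofBits (hu.taken hn.bits)).of_eq fun x => by rw [ofBits_take, ofBits_bits]

theorem PTime.divp {u : δ → List Unit} {n : δ → ℕ} (hu : PTime O u) (hn : PTime O n) :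
    PTime O (fun x => n x / 2 ^ (u x).length) :=
  (hu.ushr hn).of_eq fun x => ushr_eq _ _

theorem PTime.mulp {u : δ → List Unit} {n : δ → ℕ} (hu : PTime O u) (hn : PTime O n) :
    PTime O (fun x => n x * 2 ^ (u x).length) :=
  (hu.ushl hn).of_eq fun x => ushl_eq _ _

theorem PTime.powp {u : δ → List Unit} (hu : PTime O u) :
    PTime O (fun x => 2 ^ (u x).length) :=
  (hu.mulp (PTime.const 1)).of_eq fun x => one_mul _

theorem sz_divp_le (n k : ℕ) : sz (n / 2 ^ k) ≤ sz n := by
  induction k generalizing n with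
  | zero => simp
  | succ k ih =>
    rw [pow_succ', ← Nat.div_div_eq_div_mul, ← Nat.div2_val]
    exact (ih _).trans (num_sz_div2 n)

theorem yunits_eq (u : List Unit) : List.replicate u.length () = u := by
  induction u with
  | nil => rfl
  | cons a t ih => rw [List.length_cons, List.replicate_succ, ih]

/-! ### sums of unary functions -/

/-- `g 0 + ... + g (n - 1)` -/
def sumU (g : ℕ → ℕ) : ℕ → ℕ
  | 0 => 0
  | n + 1 => sumU g n + g n

theorem sumU_range (g : ℕ → ℕ) (n : ℕ) :
    ((List.range n).flatMap fun i => List.replicate (g i) ()) = List.replicate (sumU g n) () := by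
  induction n with
  | zero => rfl
  | succ n ih =>
    rw [List.range_succ, List.flatMap_append, ih]
    simp only [List.flatMap_cons, List.flatMap_nil, List.append_nil]
    rw [List.replicate_append_replicate]
    rfl

theorem UPoly.sumU {g : ℕ → ℕ} (hg : UPoly O g) : UPoly O (fun n => CKP.sumU g n) := by
  have h1 : PTime O (fun u : List Unit => (rangeU u).flatMap fun v =>
      List.replicate (g v.length) ()) :=
    PTime.flatMap (f := fun (_ : List Unit) (v : List Unit) => List.replicate (g v.length) ())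
      (PTime.rangeU PTime.id) (PTime.comp (g := fun v : List Unit =>
        List.replicate (g v.length) ()) hg PTime.id.snd)
  refine h1.of_eq fun u => ?_
  obtain ⟨n, rfl⟩ : ∃ n, u = List.replicate n () := ⟨_, (yunits_eq u).symm⟩
  rw [rangeU_replicate, List.flatMap_map]
  simp only [List.length_replicate]
  exact sumU_range g n

theorem sumU_mono (g : ℕ → ℕ) {m n : ℕ} (h : m ≤ n) : sumU g m ≤ sumU g n := by
  induction n with
  | zero =>
    have : m = 0 := by omega
    rw [this]
  | succ n ih =>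
    rcases Nat.lt_or_ge m (n + 1) with h1 | h1
    · exact (ih (by omega)).trans (Nat.le_add_right _ _)
    · have : m = n + 1 := by omega
      rw [this]

/-! ### the decoding of a table -/

section dec

variable (ℓ : ℕ → ℕ)

/-- an entry of a table from its code -/
def entN (m b : ℕ) : Bool × ℕ := (!decide (b = 2 ^ ℓ m), b)

/-- one step of the decoding -/
def stepN (s : ℕ × List (Bool × ℕ)) (m : ℕ) : ℕ × List (Bool × ℕ) :=
  (s.1 / 2 ^ (ℓ m + 1), entN ℓ m (s.1 % 2 ^ (ℓ m + 1)) :: s.2)

/-- the decoding of a table with `|u|` entries from a number -/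
def decN (u : List Unit) (y : ℕ) : ℕ × List (Bool × ℕ) :=
  (downU u).foldl (fun s v => stepN ℓ s v.length) (y, [])

variable {ℓ}

theorem foldN_acc (l : List (List Unit)) : ∀ (y : ℕ) (acc : List (Bool × ℕ)),
    l.foldl (fun s v => stepN ℓ s v.length) (y, acc) =
      ((l.foldl (fun s v => stepN ℓ s v.length) (y, [])).1,
        (l.foldl (fun s v => stepN ℓ s v.length) (y, [])).2 ++ acc) := by
  induction l with
  | nil => intro y acc; rfl
  | cons v l ih =>
    intro y acc
    rw [List.foldl_cons, List.foldl_cons]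
    have h1 : ∀ acc : List (Bool × ℕ), stepN ℓ (y, acc) v.length =
        (y / 2 ^ (ℓ v.length + 1), entN ℓ v.length (y % 2 ^ (ℓ v.length + 1)) :: acc) :=
      fun _ => rfl
    rw [h1, h1, ih _ (_ :: acc), ih _ [_]]
    simp

theorem decN_zero (y : ℕ) : decN ℓ (List.replicate 0 ()) y = (y, []) := rfl

theorem decN_succ (n y : ℕ) : decN ℓ (List.replicate (n + 1) ()) y =
    ((decN ℓ (List.replicate n ()) (y / 2 ^ (ℓ n + 1))).1,
      (decN ℓ (List.replicate n ()) (y / 2 ^ (ℓ n + 1))).2 ++
        [entN ℓ n (y % 2 ^ (ℓ n + 1))]) := by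
  unfold decN
  have : downU (List.replicate (n + 1) ()) =
      List.replicate n () :: downU (List.replicate n ()) := rfl
  rw [this, List.foldl_cons]
  have h2 : stepN ℓ (y, []) (List.replicate n ()).length =
      (y / 2 ^ (ℓ n + 1), [entN ℓ n (y % 2 ^ (ℓ n + 1))]) := by
    unfold stepN
    rw [List.length_replicate]
  rw [h2, foldN_acc]

theorem decN_length (n : ℕ) : ∀ y : ℕ, (decN ℓ (List.replicate n ()) y).2.length = n := by
  induction n with
  | zero => intro y; rfl
  | succ n ih =>
    intro y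
    rw [decN_succ, List.length_append, ih]
    rfl

theorem mem_downU : ∀ (u v : List Unit), v ∈ downU u → v.length ≤ u.length := by
  intro u
  induction u with
  | nil => intro v hv; exact absurd hv (by simp [downU])
  | cons a t ih =>
    intro v hv
    have : downU (a :: t) = t :: downU t := rfl
    rw [this, List.mem_cons] at hv
    rcases hv with rfl | hv
    · simp
    · exact (ih v hv).trans (by simp)

theorem PTime.decN (hl : UPoly O ℓ) {u : γ → List Unit} {y : γ → ℕ} (hu : PTime O u)
    (hy : PTime O y) : PTime O (fun a => CKP.decN ℓ (u a) (y a)) := by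
  obtain ⟨P, hP⟩ := hl.bound
  obtain ⟨Pu, hPu⟩ := hu.size_le
  unfold CKP.decN
  have hl1 : PTime O (fun p : γ × (ℕ × List (Bool × ℕ)) × List Unit =>
      List.replicate (ℓ p.2.2.length + 1) ()) :=
    PTime.comp (g := fun v : List Unit => List.replicate (ℓ v.length + 1) ())
      (UPoly.add hl (UPoly.const 1)) PTime.id.snd.snd
  have hl2 : PTime O (fun p : γ × (ℕ × List (Bool × ℕ)) × List Unit =>
      List.replicate (ℓ p.2.2.length) ()) :=
    PTime.comp (g := fun v : List Unit => List.replicate (ℓ v.length) ()) hl PTime.id.snd.snd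
  refine PTime.foldl_add (l := fun a => downU (u a)) (i := fun a => (y a, []))
    (s := fun _ s v => stepN ℓ s v.length) ?_ (hy.pair (PTime.const [])) ?_
    (4 * P.comp Pu + 20) ?_
  · refine (PTime.rangeU hu).reverse.of_eq fun a => ?_
    unfold CKP.rangeU
    rw [List.reverse_reverse]
  · unfold stepN entN
    have h1 := PTime.divp hl1 (PTime.id (α := γ × (ℕ × List (Bool × ℕ)) × List Unit)).snd.fst.fst
    have h2 := PTime.modp hl1 (PTime.id (α := γ × (ℕ × List (Bool × ℕ)) × List Unit)).snd.fst.fst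
    have h3 := PTime.powp hl2
    simp only [List.length_replicate] at h1 h2 h3
    exact h1.pair (((PTime.nat_eq h2 h3).not.pair h2).cons PTime.id.snd.fst.snd)
  · intro x b a ha
    unfold stepN entN
    rw [sz_pair, sz_cons, sz_pair]
    have h1 := sz_divp_le b.1 (ℓ a.length + 1)
    have h2 : b.1 % 2 ^ (ℓ a.length + 1) < 2 ^ (ℓ a.length + 1) :=
      Nat.mod_lt _ (Nat.two_pow_pos _)
    have h3 := sz_nat_le_of_lt h2
    have h4 := (num_bool_sz (!decide (b.1 % 2 ^ (ℓ a.length + 1) = 2 ^ ℓ a.length))).2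
    have h5 : sz b = sz b.1 + sz b.2 + 1 := rfl
    have h6 := mem_downU _ _ ha
    have h7 : ℓ a.length ≤ P.eval (Pu.eval (sz x)) := by
      refine (hP _).trans (poly_mono P ?_)
      exact h6.trans ((length_le_sz _).trans (hPu x))
    simp only [Polynomial.eval_add, Polynomial.eval_mul, Polynomial.eval_ofNat,
      Polynomial.eval_comp]
    omega

end dec

/-! ### the search problem for tables -/

section search

variable (W : ℕ → ℕ → Bool) (ℓ : ℕ → ℕ)

/-- the search problem for tables: all given entries are witnesses -/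
def W2 (n y : ℕ) : Bool :=
  decide ((decN ℓ (List.replicate n ()) y).1 = 0) &&
    checkW W (decN ℓ (List.replicate n ()) y).2

/-- the number of bits of a table -/
def sN (n : ℕ) : ℕ := sumU (fun i => ℓ i + 1) n

/-- the code of the least witness -/
noncomputable def bN (n : ℕ) : ℕ := if (t1_e W n).1 = true then (t1_e W n).2 else 2 ^ ℓ n

/-- the code of the table of the least witnesses -/
noncomputable def NN : ℕ → ℕ
  | 0 => 0
  | n + 1 => NN n * 2 ^ (ℓ n + 1) + bN W ℓ n

variable {W ℓ}

theorem sN_succ (n : ℕ) : sN ℓ (n + 1) = sN ℓ n + (ℓ n + 1) := rfl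

theorem W2_zero (y : ℕ) : W2 W ℓ 0 y = true ↔ y = 0 := by
  unfold W2
  rw [decN_zero]
  simp [checkW_iff]

theorem ent_append_left {l l' : List (Bool × ℕ)} {i : ℕ} (h : i < l.length) :
    ent (l ++ l') i = ent l i := by
  unfold ent
  simp [List.getD_eq_getElem?_getD, List.getElem?_append_left h]

theorem ent_snoc {l : List (Bool × ℕ)} {e : Bool × ℕ} {i : ℕ} (h : i = l.length) :
    ent (l ++ [e]) i = e := by
  unfold ent
  subst h
  simp

theorem W2_succ (n y : ℕ) : W2 W ℓ (n + 1) y = true ↔
    W2 W ℓ n (y / 2 ^ (ℓ n + 1)) = true ∧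
      (y % 2 ^ (ℓ n + 1) = 2 ^ ℓ n ∨ W n (y % 2 ^ (ℓ n + 1)) = true) := by
  unfold W2
  rw [decN_succ]
  simp only [Bool.and_eq_true, decide_eq_true_eq]
  rw [and_assoc]
  refine and_congr_right fun _ => ?_
  rw [checkW_iff, checkW_iff]
  have hlen := decN_length (ℓ := ℓ) n (y / 2 ^ (ℓ n + 1))
  constructor
  · intro h
    refine ⟨fun i hi h1 => ?_, ?_⟩
    · have h2 := h i (by rw [List.length_append]; omega)
      rw [ent_append_left hi] at h2
      exact h2 h1
    · have h2 := h n (by rw [List.length_append, hlen]; simp)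
      rw [ent_snoc hlen.symm] at h2
      by_cases h3 : y % 2 ^ (ℓ n + 1) = 2 ^ ℓ n
      · exact Or.inl h3
      · exact Or.inr (h2 (by unfold entN; simp [h3]))
  · rintro ⟨h1, h2⟩ i hi h3
    rw [List.length_append, hlen] at hi
    rcases Nat.lt_or_ge i n with h4 | h4
    · have h5 : i < (decN ℓ (List.replicate n ()) (y / 2 ^ (ℓ n + 1))).2.length := by omega
      rw [ent_append_left h5] at h3 ⊢
      exact h1 i h5 h3
    · have h5 : i = n := by simp at hi; omega
      subst h5
      rw [ent_snoc hlen.symm] at h3 ⊢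
      unfold entN at h3 ⊢
      rcases h2 with h2 | h2
      · simp [h2] at h3
      · exact h2

theorem t1_lt' (hb : ∀ m v, W m v = true → v < 2 ^ ℓ m) (i : ℕ) :
    (t1_e W i).1 = true → W i (t1_e W i).2 = true ∧ (t1_e W i).2 < 2 ^ ℓ i := fun h =>
  have h1 := ((t1_spec W i).2 h).1
  ⟨h1, hb i _ h1⟩

theorem bN_lt (hb : ∀ m v, W m v = true → v < 2 ^ ℓ m) (n : ℕ) : bN W ℓ n < 2 ^ (ℓ n + 1) := by
  have h2 : 2 ^ (ℓ n + 1) = 2 * 2 ^ ℓ n := by rw [pow_succ, mul_comm]
  have h3 := Nat.two_pow_pos (ℓ n)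
  unfold bN
  split_ifs with h
  · have h1 := (t1_lt' hb n h).2
    omega
  · omega

theorem NN_succ (n : ℕ) : NN W ℓ (n + 1) = NN W ℓ n * 2 ^ (ℓ n + 1) + bN W ℓ n := rfl

theorem NN_succ_div (hb : ∀ m v, W m v = true → v < 2 ^ ℓ m) (n : ℕ) :
    NN W ℓ (n + 1) / 2 ^ (ℓ n + 1) = NN W ℓ n := by
  rw [NN_succ, mul_comm, Nat.mul_add_div (Nat.two_pow_pos _),
    Nat.div_eq_of_lt (bN_lt hb n), Nat.add_zero]

theorem NN_succ_mod (hb : ∀ m v, W m v = true → v < 2 ^ ℓ m) (n : ℕ) :
    NN W ℓ (n + 1) % 2 ^ (ℓ n + 1) = bN W ℓ n := by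
  rw [NN_succ, mul_comm, Nat.mul_add_mod, Nat.mod_eq_of_lt (bN_lt hb n)]

theorem NN_valid (hb : ∀ m v, W m v = true → v < 2 ^ ℓ m) (n : ℕ) :
    W2 W ℓ n (NN W ℓ n) = true := by
  induction n with
  | zero => rw [W2_zero]; rfl
  | succ n ih =>
    rw [W2_succ, NN_succ_div hb, NN_succ_mod hb]
    refine ⟨ih, ?_⟩
    unfold bN
    split_ifs with h
    · exact Or.inr (t1_lt' hb n h).1
    · exact Or.inl rfl

theorem bN_le (hb : ∀ m v, W m v = true → v < 2 ^ ℓ m) {n v : ℕ}
    (h : v = 2 ^ ℓ n ∨ W n v = true) : bN W ℓ n ≤ v := by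
  unfold bN
  split_ifs with h1
  · have h2 := t1_lt' hb n h1
    rcases h with h | h
    · omega
    · by_contra h3
      exact ((t1_spec W n).2 h1).2 v (not_le.mp h3) h
  · rcases h with h | h
    · exact h.ge
    · exact absurd ((t1_spec W n).1.mpr ⟨v, h⟩) h1

theorem NN_le (hb : ∀ m v, W m v = true → v < 2 ^ ℓ m) (n : ℕ) : ∀ y : ℕ,
    W2 W ℓ n y = true → NN W ℓ n ≤ y := by
  induction n with
  | zero => intro y _; exact Nat.zero_le _
  | succ n ih =>
    intro y hy
    rw [W2_succ] at hy
    have h1 := ih _ hy.1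
    have h2 := bN_le hb hy.2
    rw [NN_succ]
    calc _ ≤ y / 2 ^ (ℓ n + 1) * 2 ^ (ℓ n + 1) + y % 2 ^ (ℓ n + 1) :=
          Nat.add_le_add (Nat.mul_le_mul_right _ h1) h2
      _ = y := by rw [mul_comm]; exact Nat.div_add_mod y _

theorem W2_lt (n : ℕ) : ∀ y : ℕ, W2 W ℓ n y = true → y < 2 ^ sN ℓ n := by
  induction n with
  | zero =>
    intro y hy
    rw [W2_zero] at hy
    subst hy
    exact Nat.two_pow_pos _
  | succ n ih =>
    intro y hy
    rw [W2_succ] at hy
    have h1 := ih _ hy.1
    rw [sN_succ, pow_add]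
    exact (Nat.div_lt_iff_lt_mul (Nat.two_pow_pos _)).mp h1

theorem NN_lt (hb : ∀ m v, W m v = true → v < 2 ^ ℓ m) (n : ℕ) : NN W ℓ n < 2 ^ sN ℓ n :=
  W2_lt n _ (NN_valid hb n)

theorem NN_shift (hb : ∀ m v, W m v = true → v < 2 ^ ℓ m) {m n : ℕ} (h : m ≤ n) :
    NN W ℓ n / 2 ^ (sN ℓ n - sN ℓ m) = NN W ℓ m := by
  induction n with
  | zero =>
    have : m = 0 := by omega
    subst this
    simp
  | succ n ih =>
    rcases Nat.lt_or_ge m (n + 1) with h1 | h1
    · have h2 : sN ℓ m ≤ sN ℓ n := sumU_mono _ (by omega)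
      have h3 : sN ℓ (n + 1) - sN ℓ m = (ℓ n + 1) + (sN ℓ n - sN ℓ m) := by
        rw [sN_succ]
        omega
      rw [h3, pow_add, ← Nat.div_div_eq_div_mul, NN_succ_div hb]
      exact ih (by omega)
    · have : m = n + 1 := by omega
      subst this
      simp

/-- comparisons with `NN m` are comparisons with `NN n` -/
theorem NN_lt_iff (hb : ∀ m v, W m v = true → v < 2 ^ ℓ m) {m n : ℕ} (h : m ≤ n) (t : ℕ) :
    NN W ℓ m < t ↔ NN W ℓ n < t * 2 ^ (sN ℓ n - sN ℓ m) := by
  rw [← NN_shift hb h]
  exact Nat.div_lt_iff_lt_mul (Nat.two_pow_pos _)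

/-- the table is read in its code -/
theorem NN_table (hb : ∀ m v, W m v = true → v < 2 ^ ℓ m) (n : ℕ) : ∀ i < n,
    LeastSpec W i (ent (decN ℓ (List.replicate n ()) (NN W ℓ n)).2 i) := by
  induction n with
  | zero => intro i hi; exact absurd hi (Nat.not_lt_zero _)
  | succ n ih =>
    intro i hi
    rw [decN_succ, NN_succ_div hb, NN_succ_mod hb]
    have hlen := decN_length (ℓ := ℓ) n (NN W ℓ n)
    rcases Nat.lt_or_ge i n with h1 | h1
    · rw [ent_append_left (by omega)]
      exact ih i h1
    · have h2 : i = n := by omega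
      subst h2
      rw [ent_snoc hlen.symm]
      have h3 := t1_spec W i
      unfold entN bN
      by_cases h4 : (t1_e W i).1 = true
      · have h5 := t1_lt' hb i h4
        rw [if_pos h4]
        have h6 : (!decide ((t1_e W i).2 = 2 ^ ℓ i)) = true := by
          simp
          omega
        rw [h6]
        exact ⟨⟨fun _ => h3.1.mp h4, fun _ => rfl⟩, fun _ => h3.2 h4⟩
      · rw [if_neg h4]
        have h6 : (!decide (2 ^ ℓ i = 2 ^ ℓ i)) = false := by simp
        rw [h6]
        refine ⟨⟨fun h => absurd h (by simp), fun h => absurd (h3.1.mpr h) h4⟩, fun h =>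
          absurd h (by simp)⟩

theorem sN_upoly (hl : UPoly O ℓ) : UPoly O (sN ℓ) := UPoly.sumU (UPoly.add hl (UPoly.const 1))

theorem Ver.two (h : Ver O W ℓ) : Ver O (W2 W ℓ) (sN ℓ) := by
  refine ⟨?_, sN_upoly h.hl, W2_lt⟩
  have h1 : PTime O (fun p : List Unit × ℕ => CKP.decN ℓ p.1 p.2) :=
    PTime.decN h.hl PTime.id.fst PTime.id.snd
  have h2 : PTime O (fun p : List Unit × ℕ => decide ((decN ℓ p.1 p.2).1 = 0) &&
      checkW W (decN ℓ p.1 p.2).2) :=
    (PTime.isZero h1.fst).and (PTime.checkW h h1.snd)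
  refine h2.of_eq fun p => ?_
  unfold W2
  rw [yunits_eq]

end search

end Pool.Agent.CKP
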