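import Pool.Agent.Lib_helper57.YR.A

/-!
# Truth-table completeness: a Turing-complete left cut (MP_675993_lc)

The language `RL` of the pairs `(m, t)` with `NN m < t` is in `NP`; if `NP` is decided with the table
of least witnesses, it is Turing complete.
-/

set_option autoImplicit false
set_option linter.unusedSectionVars false

namespace Pool.Agent.CKP

open Pool.Agent.CK

variable {O : Lang}
variable {α β γ δ : Type} [ToD α] [ToD β] [ToD γ] [ToD δ]

/-- the pairs `(m, t)` with `NN m < t` -/
noncomputable def RL (W : ℕ → ℕ → Bool) (ℓ : ℕ → ℕ) : Lang := fun w =>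
  decide (NN W ℓ (colr w).length < thr w)

theorem colr_q1 (u : List Unit) (t : ℕ) : (colr (q1 u t)).length = u.length := by
  have hdec : dec (q1 u t) = D.cons .nil (.cons (toD u) (toD t)) := dec_enc _
  unfold colr
  rw [hdec]
  show (toList (toD u)).length = _
  rw [toList_toD, List.length_map]

theorem thr_q1 (u : List Unit) (t : ℕ) : thr (q1 u t) = t := by
  have hdec : dec (q1 u t) = D.cons .nil (.cons (toD u) (toD t)) := dec_enc _
  unfold thr
  rw [hdec]
  show ofBits (toBits (toD t)) = t
  rw [toBits_toD_nat, ofBits_bits]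

section

variable {W : ℕ → ℕ → Bool} {ℓ : ℕ → ℕ}

theorem RL_eq (w : List Bool) : RL W ℓ w = decide (NN W ℓ (colr w).length < thr w) := rfl

theorem RL_iff (hb : ∀ m v, W m v = true → v < 2 ^ ℓ m) (w : List Bool) :
    RL W ℓ w = true ↔ ∃ v < thr w, W2 W ℓ (colr w).length v = true := by
  rw [RL_eq, decide_eq_true_eq]
  constructor
  · intro h
    exact ⟨_, h, NN_valid hb _⟩
  · rintro ⟨v, hv, h⟩
    exact lt_of_le_of_lt (NN_le hb _ _ h) hv

theorem RL_inNP (h : Ver O W ℓ) : InNP O (RL W ℓ) := by
  have h2 := h.two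
  obtain ⟨P, hP⟩ := h2.hl.bound
  refine inNP_of (V := fun p : List Bool × List Bool =>
    decide (CKP.ofBits p.2 < CKP.thr p.1) && W2 W ℓ (CKP.colr p.1).length (CKP.ofBits p.2))
    ?_ (B := fun n => P.eval (3 * n + 1)) ?_ ?_ ?_
  · exact (PTime.nat_lt (PTime.ofBits PTime.id.snd) (PTime.thr PTime.id.fst)).and
      (h2.ptime (PTime.colr PTime.id.fst) (PTime.ofBits PTime.id.snd))
  · have := UPoly.poly (O := O) (P.comp (3 * Polynomial.X + 1))
    simpa [Polynomial.eval_comp] using this
  · intro w hw
    rw [RL_iff h.hb] at hw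
    obtain ⟨v, hv, hWv⟩ := hw
    refine ⟨v.bits, ?_, ?_⟩
    · have h1 := bits_length_le (h2.hb _ v hWv)
      exact h1.trans ((hP _).trans (poly_mono P (colr_le w)))
    · simp [hv, hWv]
  · intro w y hy
    rw [Bool.and_eq_true, decide_eq_true_eq] at hy
    exact (RL_iff h.hb w).mpr ⟨_, hy.1, hy.2⟩

/-- the table found with queries to `B` -/
def tabB (B : Lang) (ℓ : ℕ → ℕ) (u : List Unit) : List (Bool × ℕ) :=
  (decN ℓ u (findW B (List.replicate (sN ℓ u.length) ()) u).2).2

theorem tabB_spec (h : Ver O W ℓ) (n : ℕ) : ∀ i < n,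
    LeastSpec W i (ent (tabB (RL W ℓ) ℓ (List.replicate n ())) i) := by
  have h1 := findW_spec (B := RL W ℓ) (W := W2 W ℓ) (L := sN ℓ n) (List.replicate n ())
    (fun t => by rw [RL_iff h.hb, thr_q1, colr_q1])
    (fun v hv => by
      rw [List.length_replicate] at hv
      exact W2_lt n v hv)
  rw [List.length_replicate] at h1
  have h2 := h1.1.mpr ⟨_, NN_valid h.hb n⟩
  have h3 := h1.2.1 h2
  have h4 : (findW (RL W ℓ) (List.replicate (sN ℓ n) ()) (List.replicate n ())).2 =
      NN W ℓ n := by
    refine le_antisymm ?_ (NN_le h.hb n _ h3.1)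
    by_contra h5
    exact h3.2 _ (not_le.mp h5) (NN_valid h.hb n)
  unfold tabB
  rw [List.length_replicate, h4]
  exact NN_table h.hb n

theorem PTime.tabB {B : Lang} (hl : UPoly O ℓ) {u : γ → List Unit} (hu : PTime (join O B) u) :
    PTime (join O B) (fun a => CKP.tabB B ℓ (u a)) := by
  have hl' : UPoly (join O B) ℓ := PTime.lift hl
  unfold CKP.tabB
  exact (PTime.decN hl' hu (PTime.findW ((sN_upoly hl').comp hu) hu).snd).snd

/-- If `NP` is decided with the table of least witnesses, then the left cut is Turing complete. -/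
theorem RL_complete (h : Ver O W ℓ) {dec2 : List (Bool × ℕ) → List Bool → Bool}
    {P : Polynomial ℕ} (hdec : PTime O (fun p : List (Bool × ℕ) × List Bool => dec2 p.1 p.2))
    (hspec : ∀ (T : List (Bool × ℕ)) (y : List Bool),
      (∀ i < P.eval y.length, LeastSpec W i (ent T i)) → dec2 T y = UK O y) :
    TuringComplete O (RL W ℓ) := by
  refine turingComplete_of (RL_inNP h) ?_
  have h1 : PTime (join O (RL W ℓ)) (fun x : List Bool =>
      dec2 (CKP.tabB (RL W ℓ) ℓ (List.replicate (P.eval x.length) ())) x) := by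
    refine PTime.comp (g := fun p : List (Bool × ℕ) × List Bool => dec2 p.1 p.2)
      (f := fun x : List Bool =>
        (CKP.tabB (RL W ℓ) ℓ (List.replicate (P.eval x.length) ()), x)) hdec.lift ?_
    have h2 : PTime O (fun x : List Bool => List.replicate (P.eval x.length) ()) :=
      UPoly.comp (UPoly.poly P) (PTime.id (α := List Bool))
    exact (PTime.tabB h.hl h2.lift).pair PTime.id
  refine h1.of_eq fun x => ?_
  exact hspec _ _ (tabB_spec h _)

end

end Pool.Agent.CKP
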