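import Pool.Agent.Lib_helper74.KY.ClassesT

/-!
# Random polynomial time, for the machine model of `CKF.Defs`
-/

set_option autoImplicit false

namespace Pool.Agent.CK

/-- `A ∈ RP^O`: a program with random bits `y`, `|y| = (|x| + 2) ^ k`, halts within
`(|x| + 2) ^ j` steps; it accepts for no `y` if `x ∉ A`, and for at least half of the `y` if
`x ∈ A`. -/
def InRP (O A : Lang) : Prop :=
  ∃ (c : Cmd) (k j : ℕ), ∀ x : List Bool,
    (∀ y : List Bool, y.length = (x.length + 2) ^ k → Halts O c x y ((x.length + 2) ^ j)) ∧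
    (A x = false → ∀ y : List Bool, y.length = (x.length + 2) ^ k →
      ¬ Accepts O c x y ((x.length + 2) ^ j)) ∧
    (A x = true → 2 ^ ((x.length + 2) ^ k) ≤ 2 * Nat.card {y : List Bool //
      y.length = (x.length + 2) ^ k ∧ Accepts O c x y ((x.length + 2) ^ j)})

end Pool.Agent.CK
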