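import Mathlib

/-!
# A growth estimate for sublinear truth-table reductions
-/

set_option autoImplicit false

namespace Pool.Agent.CKP

theorem few_size {δ : ℝ} (hδ : 0 < δ) {K : ℕ} (hK : 1 ≤ K) :
    (Nat.size K : ℝ) ≤ (1 + 1 / (δ * Real.log 2)) * (K : ℝ) ^ δ := by
  have hK' : (1 : ℝ) ≤ K := by exact_mod_cast hK
  have h1 : 0 < Nat.size K := Nat.size_pos.mpr hK
  have h2 : 2 ^ (Nat.size K - 1) ≤ K := by
    by_contra h4
    rw [not_le] at h4
    have h5 := Nat.size_le.mpr h4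
    omega
  have h3 : ((Nat.size K - 1 : ℕ) : ℝ) * Real.log 2 ≤ Real.log K := by
    rw [← Real.log_pow]
    exact Real.log_le_log (by positivity) (by exact_mod_cast h2)
  have h4 := Real.log_le_rpow_div (x := (K : ℝ)) (by positivity) hδ
  have hl2 : 0 < Real.log 2 := Real.log_pos (by norm_num)
  have h5 : ((Nat.size K - 1 : ℕ) : ℝ) = (Nat.size K : ℝ) - 1 := by
    rw [Nat.cast_sub h1, Nat.cast_one]
  rw [h5] at h3
  have h6 : (Nat.size K : ℝ) - 1 ≤ (K : ℝ) ^ δ / (δ * Real.log 2) := by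
    rw [← div_div, le_div_iff₀ hl2]
    exact h3.trans h4
  have h7 : (1 : ℝ) ≤ (K : ℝ) ^ δ := Real.one_le_rpow hK' hδ.le
  have h8 : (1 + 1 / (δ * Real.log 2)) * (K : ℝ) ^ δ =
      (K : ℝ) ^ δ + (K : ℝ) ^ δ / (δ * Real.log 2) := by ring
  rw [h8]
  linarith

theorem few_growth {β : ℝ} (h0 : 0 ≤ β) (h1 : β < 1) (b : ℕ) :
    ∃ s : ℕ, ∀ m K : ℕ, (s * (m + 1)) ^ s ≤ K →
      2 ≤ K ∧ (Nat.size K : ℝ) * (((m * K : ℕ) : ℝ) ^ β + b) + 1 < K := by
  obtain ⟨δ, hδ⟩ : ∃ δ : ℝ, δ = (1 - β) / 4 := ⟨_, rfl⟩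
  have hδ0 : 0 < δ := by rw [hδ]; linarith
  obtain ⟨C, hC⟩ : ∃ C : ℝ, C = 1 + 1 / (δ * Real.log 2) := ⟨_, rfl⟩
  have hC1 : 1 ≤ C := by
    have : 0 < Real.log 2 := Real.log_pos (by norm_num)
    rw [hC]
    have : 0 < 1 / (δ * Real.log 2) := by positivity
    linarith
  obtain ⟨s, hs⟩ := exists_nat_ge (max (1 / δ) (max 2 ((C + C * b + 2) ^ (1 / (2 * δ)))))
  have hs1 : 1 / δ ≤ s := (le_max_left _ _).trans hs
  have hs2 : (2 : ℝ) ≤ s := ((le_max_left _ _).trans (le_max_right _ _)).trans hs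
  have hs3 : (C + C * b + 2) ^ (1 / (2 * δ)) ≤ s :=
    ((le_max_right _ _).trans (le_max_right _ _)).trans hs
  have hs2' : 2 ≤ s := by exact_mod_cast hs2
  refine ⟨s, fun m K hK => ?_⟩
  have hsm : s * (m + 1) ≤ K := (Nat.le_self_pow (by omega) _).trans hK
  have hsK : s ≤ K := (Nat.le_mul_of_pos_right s (Nat.succ_pos m)).trans hsm
  have hK2 : 2 ≤ K := hs2'.trans hsK
  refine ⟨hK2, ?_⟩
  have hKr : (1 : ℝ) ≤ K := by exact_mod_cast (by omega : 1 ≤ K)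
  have hK0 : (0 : ℝ) < K := by linarith
  have hCb : 0 ≤ C * b := by positivity
  -- `m + 1 ≤ K ^ δ`
  have hm : ((m : ℝ) + 1) ≤ (K : ℝ) ^ δ := by
    have g1 : (m + 1) ^ s ≤ K :=
      (Nat.pow_le_pow_left (Nat.le_mul_of_pos_left (m + 1) (by omega)) s).trans hK
    have g2 : ((m : ℝ) + 1) ^ s ≤ K := by exact_mod_cast g1
    have g3 : ((m : ℝ) + 1) ≤ (K : ℝ) ^ (1 / (s : ℝ)) := by
      have g4 : ((((m : ℝ) + 1) ^ s) ^ (1 / (s : ℝ))) = (m : ℝ) + 1 := by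
        rw [← Real.rpow_natCast ((m : ℝ) + 1) s, ← Real.rpow_mul (by positivity)]
        rw [mul_one_div_cancel (by positivity), Real.rpow_one]
      rw [← g4]
      exact Real.rpow_le_rpow (by positivity) g2 (by positivity)
    refine g3.trans (Real.rpow_le_rpow_of_exponent_le hKr ?_)
    rw [div_le_iff₀ (by linarith)]
    rw [div_le_iff₀ hδ0] at hs1
    linarith
  have hmβ : (m : ℝ) ^ β ≤ (K : ℝ) ^ δ := by
    calc (m : ℝ) ^ β ≤ ((m : ℝ) + 1) ^ β :=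
          Real.rpow_le_rpow (by positivity) (by linarith) h0
      _ ≤ ((m : ℝ) + 1) ^ (1 : ℝ) :=
          Real.rpow_le_rpow_of_exponent_le (by linarith [(Nat.cast_nonneg m : (0 : ℝ) ≤ m)]) h1.le
      _ = (m : ℝ) + 1 := Real.rpow_one _
      _ ≤ (K : ℝ) ^ δ := hm
  have hsz := few_size hδ0 (K := K) (by omega)
  rw [← hC] at hsz
  have hprod : (((m * K : ℕ) : ℝ) ^ β) ≤ (K : ℝ) ^ δ * (K : ℝ) ^ β := by
    push_cast
    rw [Real.mul_rpow (by positivity) (by positivity)]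
    exact mul_le_mul_of_nonneg_right hmβ (by positivity)
  have hδ1 : (1 : ℝ) ≤ (K : ℝ) ^ δ := Real.one_le_rpow hKr hδ0.le
  have hβ1 : (1 : ℝ) ≤ (K : ℝ) ^ β := Real.one_le_rpow hKr h0
  set x := (K : ℝ) ^ δ with hx
  set y := (K : ℝ) ^ β with hy
  have hb : ((m * K : ℕ) : ℝ) ^ β + b ≤ x * y + b := by linarith
  have hmain : (Nat.size K : ℝ) * (((m * K : ℕ) : ℝ) ^ β + b) + 1 ≤
      (C + C * b + 1) * (x * (x * y)) := by
    have hb0 : (0 : ℝ) ≤ b := Nat.cast_nonneg b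
    have g0 : (0 : ℝ) ≤ ((m * K : ℕ) : ℝ) ^ β + b := by positivity
    have g1 : (Nat.size K : ℝ) * (((m * K : ℕ) : ℝ) ^ β + b) ≤ (C * x) * (x * y + b) :=
      mul_le_mul hsz hb g0 (by positivity)
    have g2 : (1 : ℝ) ≤ x * y := by nlinarith
    have g3 : (b : ℝ) ≤ b * (x * y) := by nlinarith
    have g4 : (1 : ℝ) ≤ x * (x * y) := by nlinarith
    have g5 : (C * x) * (x * y + b) ≤ (C * x) * (x * y + b * (x * y)) :=
      mul_le_mul_of_nonneg_left (by linarith) (by positivity)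
    calc (Nat.size K : ℝ) * (((m * K : ℕ) : ℝ) ^ β + b) + 1
        ≤ (C * x) * (x * y + b * (x * y)) + x * (x * y) := by linarith
      _ = (C + C * b + 1) * (x * (x * y)) := by ring
  refine lt_of_le_of_lt hmain ?_
  -- `C + C b + 1 < K ^ (2 δ)`
  have hlast : C + C * b + 1 < (K : ℝ) ^ (2 * δ) := by
    have g1 : (C + C * b + 2) ^ (1 / (2 * δ)) ≤ (K : ℝ) :=
      hs3.trans (by exact_mod_cast hsK)
    have g2 : (((C + C * b + 2) ^ (1 / (2 * δ))) ^ (2 * δ)) ≤ (K : ℝ) ^ (2 * δ) :=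
      Real.rpow_le_rpow (by positivity) g1 (by positivity)
    rw [← Real.rpow_mul (by positivity), one_div_mul_cancel (by positivity), Real.rpow_one] at g2
    linarith
  have hxy : x * (x * y) = (K : ℝ) ^ (2 * δ + β) := by
    rw [hx, hy, ← Real.rpow_add hK0, ← Real.rpow_add hK0]
    congr 1
    ring
  have hK1 : (K : ℝ) = (K : ℝ) ^ (2 * δ) * (K : ℝ) ^ (2 * δ + β) := by
    rw [← Real.rpow_add hK0]
    have : 2 * δ + (2 * δ + β) = 1 := by rw [hδ]; ring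
    rw [this, Real.rpow_one]
  rw [hxy]
  conv_rhs => rw [hK1]
  exact mul_lt_mul_of_pos_right hlast (by positivity)

end Pool.Agent.CKP
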