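import Pool.Agent.Lib_helper57.YR.A
import Pool.Agent.Lib_helper74.KY.Blk.N0

/-!
# The nested verifier (MP_675993_lc), with the interface of block N1
-/

set_option autoImplicit false
set_option linter.unusedSectionVars false

namespace Pool.Agent.CKP

open Pool.Agent.CK

variable {O : Lang}

section

variable {W : ℕ → ℕ → Bool} {ℓ : ℕ → ℕ}

/-- the nested verifier: the witnesses for `m` are the tables with entries for `0, ..., m` -/
def WT2 (W : ℕ → ℕ → Bool) (ℓ : ℕ → ℕ) (m v : ℕ) : Bool := W2 W ℓ (m + 1) v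

/-- the number of bits of the witnesses of the nested verifier -/
def lenT (ℓ : ℕ → ℕ) (m : ℕ) : ℕ := sN ℓ (m + 1)

theorem lenT_upoly (h : UPoly O ℓ) : UPoly O (lenT ℓ) := by
  have h1 : PTime O (fun u : List Unit => List.replicate (sN ℓ (() :: u).length) ()) :=
    UPoly.comp (sN_upoly h) (PTime.cons (PTime.const ()) PTime.id)
  exact h1

theorem ver_WT2 (h : Ver O W ℓ) : Ver O (WT2 W ℓ) (lenT ℓ) := by
  refine ⟨?_, lenT_upoly h.hl, fun m v hv => W2_lt _ v hv⟩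
  have h1 : PTime O (fun p : List Unit × ℕ => W2 W ℓ (() :: p.1).length p.2) :=
    h.two.ptime (PTime.cons (PTime.const ()) PTime.id.fst) PTime.id.snd
  exact h1

theorem tmW_WT2 (hb : ∀ m v, W m v = true → v < 2 ^ ℓ m) (m u : ℕ) :
    tmW (WT2 W ℓ) m u = true ↔ NN W ℓ (m + 1) < u := by
  unfold tmW
  rw [decide_eq_true_eq]
  constructor
  · rintro ⟨v, hv, h⟩
    exact lt_of_le_of_lt (NN_le hb _ _ h) hv
  · intro h
    exact ⟨_, h, NN_valid hb _⟩

theorem cut_WT2 (hb : ∀ m v, W m v = true → v < 2 ^ ℓ m) : Cut (WT2 W ℓ) (lenT ℓ) := by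
  intro m m' u u' h h1
  rw [tmW_WT2 hb] at h1 ⊢
  unfold lenT at h
  rcases Nat.le_total m m' with hm | hm
  · have h2 : sN ℓ (m + 1) ≤ sN ℓ (m' + 1) := sumU_mono _ (by omega)
    rw [NN_lt_iff hb (show m + 1 ≤ m' + 1 by omega)] at h1
    refine lt_of_lt_of_le h1 ?_
    have h3 : 2 ^ sN ℓ (m' + 1) = 2 ^ (sN ℓ (m' + 1) - sN ℓ (m + 1)) * 2 ^ sN ℓ (m + 1) := by
      rw [← pow_add]
      congr 1
      omega
    rw [h3, ← mul_assoc] at h
    exact Nat.le_of_mul_le_mul_right h (Nat.two_pow_pos _)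
  · have h2 : sN ℓ (m' + 1) ≤ sN ℓ (m + 1) := sumU_mono _ (by omega)
    rw [NN_lt_iff hb (show m' + 1 ≤ m + 1 by omega)]
    refine lt_of_lt_of_le h1 ?_
    have h3 : 2 ^ sN ℓ (m + 1) = 2 ^ (sN ℓ (m + 1) - sN ℓ (m' + 1)) * 2 ^ sN ℓ (m' + 1) := by
      rw [← pow_add]
      congr 1
      omega
    rw [h3, ← mul_assoc] at h
    exact Nat.le_of_mul_le_mul_right h (Nat.two_pow_pos _)

theorem least_NN (hb : ∀ m v, W m v = true → v < 2 ^ ℓ m) {m : ℕ} {s : Bool × ℕ}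
    (hs : LeastSpec (WT2 W ℓ) m s) : s.1 = true ∧ s.2 = NN W ℓ (m + 1) := by
  have h1 : s.1 = true := hs.1.mpr ⟨_, NN_valid hb _⟩
  have h2 := hs.2 h1
  refine ⟨h1, le_antisymm ?_ (NN_le hb _ _ h2.1)⟩
  by_contra h3
  exact h2.2 _ (not_le.mp h3) (NN_valid hb _)

theorem least_WT2 (hb : ∀ m v, W m v = true → v < 2 ^ ℓ m) {m : ℕ} {s : Bool × ℕ}
    (hs : LeastSpec (WT2 W ℓ) m s) : ∃ t : Bool, LeastSpec W m (t, s.2 % 2 ^ (ℓ m + 1)) := by
  rw [(least_NN hb hs).2, NN_succ_mod hb]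
  have h3 := t1_spec W m
  unfold bN
  by_cases h4 : (t1_e W m).1 = true
  · rw [if_pos h4]
    exact ⟨true, ⟨fun _ => h3.1.mp h4, fun _ => rfl⟩, fun _ => h3.2 h4⟩
  · rw [if_neg h4]
    exact ⟨false, ⟨fun h => absurd h (by simp), fun h => absurd (h3.1.mpr h) h4⟩, fun h =>
      absurd h (by simp)⟩

end

theorem nest_pr {L : Lang} {W : ℕ → ℕ → Bool} {ℓ : ℕ → ℕ} {ans : List Unit → ℕ → Bool}
    (hver : Ver O W ℓ) (hans : PTime O (fun p : List Unit × ℕ => ans p.1 p.2))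
    (hansL : ∀ (x : List Bool) (s : Bool × ℕ), LeastSpec W (num x) s →
      ans (List.replicate (num x) ()) s.2 = L x) :
    ∃ (W' : ℕ → ℕ → Bool) (ℓ' : ℕ → ℕ) (ans' : List Unit → ℕ → Bool), Ver O W' ℓ' ∧ Cut W' ℓ' ∧
      PTime O (fun p : List Unit × ℕ => ans' p.1 p.2) ∧
      ∀ (x : List Bool) (s : Bool × ℕ), LeastSpec W' (num x) s →
        ans' (List.replicate (num x) ()) s.2 = L x := by
  refine ⟨WT2 W ℓ, lenT ℓ, fun u v => ans u (v % 2 ^ (ℓ u.length + 1)), ver_WT2 hver,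
    cut_WT2 hver.hb, ?_, fun x s hs => ?_⟩
  · have h1 : PTime O (fun p : List Unit × ℕ => List.replicate (ℓ p.1.length + 1) ()) :=
      UPoly.comp (g := fun n => ℓ n + 1) (UPoly.add hver.hl (UPoly.const 1)) PTime.id.fst
    have h2 := PTime.modp h1 (PTime.id (O := O) (α := List Unit × ℕ)).snd
    simp only [List.length_replicate] at h2
    exact hans.comp (PTime.id.fst.pair h2)
  · obtain ⟨t, ht⟩ := least_WT2 hver.hb hs
    have h1 := hansL x _ ht
    simp only [List.length_replicate]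
    exact h1

end Pool.Agent.CKP
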